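import Mathlib

/-! Choice of offsets by averaging: no test point meets too many bad events. -/

namespace Pool.Agent.Lib8ede

open Finset

theorem exists_offsets {α : Type*} (I H b : ℕ) (hH : 0 < H) (W : Finset α)
    (bad : α → Fin I → ℕ → Prop)
    (hb : ∀ w ∈ W, ∀ i, {o : ℕ | o < H ∧ bad w i o}.ncard ≤ b) :
    ∃ o : Fin I → ℕ, (∀ i, o i < H) ∧ ∀ w ∈ W,
      2 ^ ({i : Fin I | bad w i (o i)}.ncard) * H ^ I ≤ W.card * (H + b) ^ I := by
  classical
  by_contra hcon
  push Not at hcon
  have hcard : (Fintype.piFinset fun _ : Fin I => range H).card = H ^ I := by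
    simp
  have hne : (Fintype.piFinset fun _ : Fin I => range H).Nonempty := by
    rw [← Finset.card_pos, hcard]
    positivity
  have h1 : ∀ o ∈ (Fintype.piFinset fun _ : Fin I => range H),
      W.card * (H + b) ^ I < ∑ w ∈ W, (∏ i, if bad w i (o i) then 2 else 1) * H ^ I := by
    intro o ho
    obtain ⟨w, hw, hlt⟩ := hcon o (fun i => by simpa using Fintype.mem_piFinset.1 ho i)
    refine lt_of_lt_of_le hlt ?_
    have h2 : (∏ i, if bad w i (o i) then 2 else 1) = 2 ^ ({i : Fin I | bad w i (o i)}.ncard) := by
      rw [Finset.prod_ite, Finset.prod_const_one, mul_one, Finset.prod_const]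
      congr 1
      rw [← Set.ncard_coe_finset]
      congr 1
      ext i
      simp
    rw [← h2]
    exact Finset.single_le_sum (f := fun w => (∏ i, if bad w i (o i) then 2 else 1) * H ^ I)
      (fun _ _ => Nat.zero_le _) hw
  have h3 := Finset.sum_lt_sum_of_nonempty hne h1
  rw [Finset.sum_const, hcard, smul_eq_mul, Finset.sum_comm] at h3
  have h4 : ∀ w ∈ W, ∑ o ∈ (Fintype.piFinset fun _ : Fin I => range H),
      (∏ i, if bad w i (o i) then 2 else 1) * H ^ I ≤ (H + b) ^ I * H ^ I := by
    intro w hw
    rw [← Finset.sum_mul]
    refine Nat.mul_le_mul_right _ ?_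
    rw [← Finset.prod_univ_sum (fun _ : Fin I => range H)
      (fun i j => if bad w i j then 2 else 1)]
    calc ∏ i : Fin I, ∑ j ∈ range H, (if bad w i j then 2 else 1)
        ≤ ∏ _i : Fin I, (H + b) := by
          refine Finset.prod_le_prod (fun _ _ => Nat.zero_le _) fun i _ => ?_
          have h5 : ∑ j ∈ range H, (if bad w i j then 2 else 1)
              = H + ((range H).filter (bad w i)).card := by
            rw [Finset.card_filter]
            have : ∀ j ∈ range H, (if bad w i j then 2 else 1)
                = 1 + (if bad w i j then 1 else 0) := by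
              intro j _
              split_ifs <;> rfl
            rw [Finset.sum_congr rfl this, Finset.sum_add_distrib]
            simp
          rw [h5]
          refine Nat.add_le_add_left ?_ _
          refine le_trans (le_of_eq ?_) (hb w hw i)
          rw [← Set.ncard_coe_finset]
          congr 1
          ext o
          simp
      _ = (H + b) ^ I := by simp
  have h6 := Finset.sum_le_sum h4
  rw [Finset.sum_const, smul_eq_mul] at h6
  have h7 := lt_of_lt_of_le h3 h6
  have h8 : H ^ I * (W.card * (H + b) ^ I) = W.card * ((H + b) ^ I * H ^ I) := by ring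
  omega

end Pool.Agent.Lib8ede
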