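import Pool.Agent.Lib8ede.Climb2

/-! The climb from the base level to the top level. -/

namespace Pool.Agent.Lib8ede

open Complex ComplexConjugate

lemma base {K : ℕ} {m : ℂ} {θ T : ℝ} {s : ℝ} (hK : 12 ≤ K)
    (hT : 8 * ((2 : ℝ) ^ K) ^ 2 ≤ T) (hact : Act m θ T K) (hs : s = 1 ∨ s = -1) :
    Stat 12 m θ (rnd m) s 10000000 := by
  obtain ⟨τ, d, t0, ⟨hτ1, hτ2⟩, ⟨hd1, hd2⟩, hroad⟩ := road_exists (le_refl 12) m θ s hs
  have hs' : -s = 1 ∨ -s = -1 := by rcases hs with rfl | rfl <;> norm_num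
  have hn := num (le_refl 12)
  have ha := hn.apos
  have hH := hn.Hpos
  have hHP := hn.Hle
  have habsτ : |τ| ≤ 3 * ak 12 := abs_of_sign hs (by linarith) hτ1 hτ2
  have habsd : |d| ≤ 3 * Hk 12 := abs_of_sign hs' (b := 2 * Hk 12) (by linarith) (by linarith)
    (by linarith)
  have hM : (0 : ℝ) < Mk 12 := by exact_mod_cast Mk_pos 12
  have hM1 : (1 : ℝ) ≤ Mk 12 := by exact_mod_cast Mk_pos 12
  have hMi : 1 / (Mk 12 : ℝ) ≤ 1 := by rw [div_le_one hM]; exact hM1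
  have hKP : ((2 : ℝ) ^ 12) ^ 2 ≤ ((2 : ℝ) ^ K) ^ 2 :=
    pow_le_pow_left₀ (by positivity) (pow_le_pow_right₀ (by norm_num) hK) 2
  set j : ℤ := ⌈(((2 : ℝ) ^ 12) ^ 2 / 4 - t0) * Mk 12⌉ with hj
  set t : ℝ := t0 + j / Mk 12 with ht
  have ht1 : ((2 : ℝ) ^ 12) ^ 2 / 4 ≤ t := by
    have h1 : (((2 : ℝ) ^ 12) ^ 2 / 4 - t0) * Mk 12 ≤ j := Int.le_ceil _
    have h2 : ((2 : ℝ) ^ 12) ^ 2 / 4 - t0 ≤ j / Mk 12 := by rw [le_div_iff₀ hM]; exact h1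
    linarith
  have ht2 : t ≤ ((2 : ℝ) ^ 12) ^ 2 / 4 + 1 := by
    have h1 : (j : ℝ) < (((2 : ℝ) ^ 12) ^ 2 / 4 - t0) * Mk 12 + 1 := Int.ceil_lt_add_one _
    have h2 : (j : ℝ) / Mk 12 ≤ ((((2 : ℝ) ^ 12) ^ 2 / 4 - t0) * Mk 12 + 1) / Mk 12 :=
      div_le_div_of_nonneg_right h1.le hM.le
    have h3 : ((((2 : ℝ) ^ 12) ^ 2 / 4 - t0) * Mk 12 + 1) / Mk 12
        = ((2 : ℝ) ^ 12) ^ 2 / 4 - t0 + 1 / Mk 12 := by field_simp
    linarith
  have ht0 : 0 ≤ t := le_trans (by positivity) ht1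
  have hq : m + ang θ * (ang τ * ⟨t, d⟩) ∈ net :=
    mem_road (le_refl 12) hK (by norm_num at hKP; linarith) hact habsτ habsd hroad j ht1
      (by norm_num at ht2 ⊢; linarith) (by norm_num at ht2 hKP ⊢; linarith)
  refine ⟨τ, d, t, ⟨hτ1, hτ2⟩, ⟨hd1, hd2⟩, hroad.shift j, ht1,
    by norm_num at ht2 ⊢; linarith, ?_⟩
  obtain ⟨e1, e2, e3, e4⟩ := loc_bounds hn habsτ habsd ht0 (by norm_num at ht2 ⊢; linarith)
  refine (D_local (rnd_mem m) hq).mono ?_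
  have h1 : ‖rnd m - (m + ang θ * (ang τ * ⟨t, d⟩))‖ ≤ 1 + (t + 3 * 2 ^ 12) := by
    have : rnd m - (m + ang θ * (ang τ * ⟨t, d⟩)) = -(m - rnd m) - ang θ * (ang τ * ⟨t, d⟩) := by
      ring
    rw [this]
    refine (norm_sub_le _ _).trans ?_
    rw [norm_neg, norm_mul (ang θ), norm_ang, one_mul]
    exact add_le_add (norm_sub_rnd m) e4
  norm_num at ht1 ht2 h1
  linarith

theorem climb_all {K : ℕ} {m : ℂ} {θ T : ℝ}
    (hT : 8 * ((2 : ℝ) ^ K) ^ 2 ≤ T) (hact : Act m θ T K) {k : ℕ} (hk : 12 ≤ k) (hkK : k ≤ K) :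
    ∀ s : ℝ, s = 1 ∨ s = -1 → Stat k m θ (rnd m) s (10000060 - 60 / ((k : ℝ) + 1)) := by
  induction k, hk using Nat.le_induction with
  | base =>
    intro s hs
    exact (base hkK hT hact hs).mono (by norm_num)
  | succ k hk ih =>
    intro s hs
    have hs' : -s = 1 ∨ -s = -1 := by rcases hs with rfl | rfl <;> norm_num
    have h1 := climb_step hk hkK hT hact hs' (ih (by omega) (-s) hs')
    rw [neg_neg] at h1
    refine h1.mono ?_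
    have h2 : (0 : ℝ) < (k : ℝ) + 1 := by positivity
    have h3 : (0 : ℝ) < (k : ℝ) + 2 := by positivity
    have h4 : 60 / ((k : ℝ) + 1) = 60 / ((k : ℝ) + 2) + 60 / (((k : ℝ) + 1) * ((k : ℝ) + 2)) := by
      field_simp
      ring
    have h5 : 52 / ((k : ℝ) + 2) ^ 2 ≤ 60 / (((k : ℝ) + 1) * ((k : ℝ) + 2)) := by
      rw [div_le_div_iff₀ (by positivity) (by positivity)]
      nlinarith
    push_cast
    have h6 : (k : ℝ) + 1 + 1 = k + 2 := by ring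
    rw [h6]
    linarith

end Pool.Agent.Lib8ede
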