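import Pool.Agent.Lib8ede.Scales

/-! Real analysis of the crossing of two tilted roads. -/

namespace Pool.Agent.Lib8ede

lemma trig_bounds {x : ℝ} (h0 : 0 ≤ x) (h1 : x ≤ 1 / 100) :
    999 / 1000 * x ≤ Real.sin x ∧ Real.sin x ≤ x ∧ 999 / 1000 ≤ Real.cos x ∧ Real.cos x ≤ 1 := by
  refine ⟨?_, Real.sin_le h0, ?_, Real.cos_le_one x⟩
  · rcases h0.eq_or_lt with h | h
    · rw [← h]; simp
    · have h2 := Real.sin_gt_sub_cube h
      have h3 : x ^ 3 ≤ 1 / 10000 * x := by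
        have : x ^ 2 ≤ 1 / 10000 := by nlinarith
        nlinarith
      linarith
  · have h2 := Real.one_sub_sq_div_two_le_cos (x := x)
    nlinarith

/-- relation between two consecutive scales -/
def Next (a H a' H' : ℝ) : Prop := (a' = a / 2 ∧ H' = 2 * H) ∨ (a' = a / 4 ∧ H' = H)

lemma next_scale {k : ℕ} (hk : 12 ≤ k) : Next (ak k) (Hk k) (ak (k + 1)) (Hk (k + 1)) := by
  rcases lev_succ k with h | h
  · left
    rw [ak_real, ak_real, Hk_real (by omega), Hk_real (by omega), h, pow_succ]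
    constructor
    · field_simp
    · ring
  · right
    rw [ak_real, ak_real, Hk_real (by omega), Hk_real (by omega), h, pow_succ, pow_succ]
    constructor
    · field_simp; norm_num
    · field_simp

/-- the position of the crossing -/
lemma cross_pos {a H P Q a' H' δ d₁ d₂ : ℝ} (hn : Num a H P Q) (hx : Next a H a' H')
    (hδ1 : 2 * (a + a') ≤ δ) (hδ2 : δ ≤ 3 * (a + a')) (hd1 : 2 * H ≤ d₁) (hd1' : d₁ ≤ 3 * H)
    (hd2 : 2 * H' ≤ d₂) (hd2' : d₂ ≤ 3 * H') :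
    0 < Real.sin δ ∧ 13 / 10 * P ^ 2 * Real.sin δ ≤ d₁ * Real.cos δ + d₂ ∧
      d₁ * Real.cos δ + d₂ ≤ 39 / 10 * P ^ 2 * Real.sin δ := by
  have ha := hn.apos
  have hH := hn.Hpos
  have hr := hn.ratio
  have has := hn.asmall
  have hP := hn.P1
  have hpi := Real.pi_gt_d2
  have hpi' := Real.pi_lt_d2
  have hδ0 : 0 < δ := by
    rcases hx with ⟨h1, -⟩ | ⟨h1, -⟩ <;> rw [h1] at hδ1 <;> linarith
  have hδ3 : δ ≤ 9 / 2 * a := by
    rcases hx with ⟨h1, -⟩ | ⟨h1, -⟩ <;> rw [h1] at hδ2 <;> linarith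
  obtain ⟨t1, t2, t3, t4⟩ := trig_bounds hδ0.le (by linarith)
  have hs0 : 0 < Real.sin δ := by linarith
  have hlow : 999 / 1000 * (2 * H) ≤ d₁ * Real.cos δ := by nlinarith
  have hupp : d₁ * Real.cos δ ≤ 3 * H := by
    have : 0 ≤ d₁ := by linarith
    nlinarith
  have hPa1 : P ^ 2 * a ≤ 63 / 80 * H := by nlinarith
  have hPa2 : 157 / 200 * H ≤ P ^ 2 * a := by nlinarith
  have hP2 : 0 < P ^ 2 := by positivity
  refine ⟨hs0, ?_, ?_⟩
  · rcases hx with ⟨h1, h2⟩ | ⟨h1, h2⟩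
    · have h3 : P ^ 2 * Real.sin δ ≤ P ^ 2 * (9 / 2 * a) :=
        mul_le_mul_of_nonneg_left (by linarith) hP2.le
      rw [h2] at hd2
      nlinarith
    · have h3 : P ^ 2 * Real.sin δ ≤ P ^ 2 * (15 / 4 * a) :=
        mul_le_mul_of_nonneg_left (by rw [h1] at hδ2; linarith) hP2.le
      rw [h2] at hd2
      nlinarith
  · rcases hx with ⟨h1, h2⟩ | ⟨h1, h2⟩
    · have h3 : P ^ 2 * (999 / 1000 * (3 * a)) ≤ P ^ 2 * Real.sin δ :=
        mul_le_mul_of_nonneg_left (by rw [h1] at hδ1; linarith) hP2.le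
      rw [h2] at hd2'
      nlinarith
    · have h3 : P ^ 2 * (999 / 1000 * (5 / 2 * a)) ≤ P ^ 2 * Real.sin δ :=
        mul_le_mul_of_nonneg_left (by rw [h1] at hδ1; linarith) hP2.le
      rw [h2] at hd2'
      nlinarith

end Pool.Agent.Lib8ede
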