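import Pool.Agent.Lib8ede.Walks
import Pool.Agent.Lib8ede.Cross

/-! Climbing from scale to scale. -/

namespace Pool.Agent.Lib8ede

open Complex ComplexConjugate

lemma loc_re (τ x d : ℝ) : (ang τ * ⟨x, d⟩).re = x * Real.cos τ - d * Real.sin τ := by
  rw [Complex.mul_re, ang_re, ang_im]
  ring

lemma loc_im (τ x d : ℝ) : (ang τ * ⟨x, d⟩).im = x * Real.sin τ + d * Real.cos τ := by
  rw [Complex.mul_im, ang_re, ang_im]
  ring

/-- the roads of level `k` in the relevant region are present -/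
def Act (m : ℂ) (θ T : ℝ) (K : ℕ) : Prop :=
  ∀ k, 12 ≤ k → k ≤ K → ∀ z : ℂ, ((2 : ℝ) ^ k) ^ 2 / 5 ≤ z.re → z.re ≤ 13 / 20 * T →
    |z.im| ≤ 60 * 2 ^ k → (4 : ℝ) ^ k / 16 ≤ ‖m + ang θ * z‖

/-- coordinates of a road point -/
lemma loc_bounds {a H P Q τ d x : ℝ} (hn : Num a H P Q) (hτ : |τ| ≤ 3 * a) (hd : |d| ≤ 3 * H)
    (hx0 : 0 ≤ x) (hx : x ≤ 21 * P ^ 2) :
    999 / 1000 * x - 8 ≤ (ang τ * ⟨x, d⟩).re ∧ (ang τ * ⟨x, d⟩).re ≤ x + 8 ∧
      |(ang τ * ⟨x, d⟩).im| ≤ 60 * P ∧ ‖ang τ * ⟨x, d⟩‖ ≤ x + 3 * P := by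
  have ha := hn.apos
  have hH := hn.Hpos
  have haH := hn.aH
  have haP := hn.ale
  have has := hn.asmall
  have hHP := hn.Hle
  have hP := hn.P1
  have hs := Real.abs_sin_le_abs.trans hτ
  have hds : |d * Real.sin τ| ≤ 8 := by
    rw [abs_mul]
    calc |d| * |Real.sin τ| ≤ (3 * H) * (3 * a) :=
          mul_le_mul hd hs (abs_nonneg _) (by linarith)
      _ ≤ 8 := by linarith
  have hc := Real.one_sub_sq_div_two_le_cos (x := τ)
  have hc1 := Real.cos_le_one τ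
  have hτ2 : τ ^ 2 ≤ 1 / 500 := by
    rw [← sq_abs]
    have : |τ| ≤ 1 / 1000 := by linarith
    nlinarith [abs_nonneg τ]
  have hc2 : 999 / 1000 ≤ Real.cos τ := by linarith
  rw [loc_re, loc_im]
  obtain ⟨hd1, hd2⟩ := abs_le.1 hds
  refine ⟨?_, ?_, ?_, ?_⟩
  · have : 999 / 1000 * x ≤ x * Real.cos τ := by nlinarith
    linarith
  · have : x * Real.cos τ ≤ x := by nlinarith
    linarith
  · have h1 : |x * Real.sin τ| ≤ 51 * P := by
      rw [abs_mul, abs_of_nonneg hx0]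
      calc x * |Real.sin τ| ≤ (21 * P ^ 2) * (3 * a) :=
            mul_le_mul hx hs (abs_nonneg _) (by positivity)
        _ = 63 * P * (a * P) := by ring
        _ ≤ 63 * P * (4 / 5) := mul_le_mul_of_nonneg_left haP (by positivity)
        _ ≤ 51 * P := by linarith
    have h2 : |d * Real.cos τ| ≤ 3 * P := by
      rw [abs_mul, abs_of_nonneg (by linarith : 0 ≤ Real.cos τ)]
      calc |d| * Real.cos τ ≤ |d| * 1 := mul_le_mul_of_nonneg_left hc1 (abs_nonneg _)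
        _ ≤ 3 * P := by linarith
    calc |x * Real.sin τ + d * Real.cos τ| ≤ |x * Real.sin τ| + |d * Real.cos τ| := abs_add_le _ _
      _ ≤ 60 * P := by linarith
  · rw [norm_mul, norm_ang, one_mul]
    refine (Complex.norm_le_abs_re_add_abs_im _).trans ?_
    simp only
    rw [abs_of_nonneg hx0]
    linarith

lemma mem_road {k K : ℕ} {m : ℂ} {θ T τ d t : ℝ} (hk : 12 ≤ k) (hkK : k ≤ K) (hT : 2000 ≤ T)
    (hact : Act m θ T K) (hτ : |τ| ≤ 3 * ak k) (hd : |d| ≤ 3 * Hk k)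
    (hroad : IsRoad k m θ τ d t) (j : ℤ) (h1 : ((2 : ℝ) ^ k) ^ 2 / 4 ≤ t + j / Mk k)
    (h2 : t + j / Mk k ≤ 21 * ((2 : ℝ) ^ k) ^ 2) (h3 : t + j / Mk k ≤ 129 / 200 * T) :
    m + ang θ * (ang τ * ⟨t + j / Mk k, d⟩) ∈ net := by
  have hP := P_ge hk
  have hx0 : 0 ≤ t + j / Mk k := le_trans (by positivity) h1
  obtain ⟨e1, e2, e3, e4⟩ := loc_bounds (num hk) hτ hd hx0 h2
  apply hroad
  · rw [Bk_real]
    refine e4.trans ?_
    nlinarith
  · refine hact k hk hkK _ ?_ ?_ e3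
    · refine le_trans ?_ e1
      nlinarith
    · refine e2.trans ?_
      linarith

/-- the state of the climb at scale `k`, side `s` -/
def Stat (k : ℕ) (m : ℂ) (θ : ℝ) (v : ℂ) (s A : ℝ) : Prop :=
  ∃ τ d t : ℝ, (2 * ak k ≤ s * τ ∧ s * τ ≤ 3 * ak k) ∧
    (2 * (Hk k : ℝ) ≤ -(s * d) ∧ -(s * d) ≤ 3 * Hk k) ∧ IsRoad k m θ τ d t ∧
    ((2 : ℝ) ^ k) ^ 2 / 4 ≤ t ∧ t ≤ ((2 : ℝ) ^ k) ^ 2 ∧
    D v (m + ang θ * (ang τ * ⟨t, d⟩)) ((ang τ * ⟨t, d⟩).re + A)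

lemma IsRoad.shift {k : ℕ} {m : ℂ} {θ τ d t : ℝ} (h : IsRoad k m θ τ d t) (j : ℤ) :
    IsRoad k m θ τ d (t + j / Mk k) := by
  intro i
  have := h (j + i)
  have e : t + ((j + i : ℤ) : ℝ) / Mk k = t + j / Mk k + i / Mk k := by
    push_cast; ring
  rw [e] at this
  exact this

lemma abs_of_sign {s x b c : ℝ} (hs : s = 1 ∨ s = -1) (hb : 0 ≤ b) (h1 : b ≤ s * x)
    (h2 : s * x ≤ c) : |x| ≤ c := by
  rcases hs with rfl | rfl
  · rw [abs_of_nonneg (by linarith)]; linarith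
  · rw [abs_of_nonpos (by linarith)]; linarith

end Pool.Agent.Lib8ede
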