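import Pool.Agent.Lib8ede.Step

/-! The climb: induction over the scales. -/

namespace Pool.Agent.Lib8ede

open Complex ComplexConjugate

lemma sign_trig {s : ℝ} (hs : s = 1 ∨ s = -1) (x : ℝ) :
    Real.cos (s * x) = Real.cos x ∧ Real.sin (s * x) = s * Real.sin x := by
  rcases hs with rfl | rfl
  · simp
  · simp

lemma sign_sq {s : ℝ} (hs : s = 1 ∨ s = -1) : s * s = 1 := by
  rcases hs with rfl | rfl <;> norm_num

/-- change of the local frame -/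
lemma frame_change {s τ τ' x d d' δ g : ℝ} (hs : s = 1 ∨ s = -1) (hδ : δ = s * (τ - τ'))
    (hg : g = -(s * d) * Real.cos δ + s * d' - x * Real.sin δ) :
    ang τ * ⟨x, d⟩ = ang τ' * ⟨x * Real.cos δ + -(s * d) * Real.sin δ, d' - s * g⟩ := by
  have hss := sign_sq hs
  have h1 : τ = τ' + s * δ := by
    rw [hδ, ← mul_assoc, hss]; ring
  obtain ⟨hc, hsn⟩ := sign_trig hs δ
  have h2 : ang (s * δ) * ⟨x, d⟩ = ⟨x * Real.cos δ + -(s * d) * Real.sin δ, d' - s * g⟩ := by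
    apply Complex.ext
    · rw [loc_re, hc, hsn]
      simp only
      ring
    · rw [loc_im, hc, hsn]
      simp only
      rw [hg]
      linear_combination (d' - d * Real.cos δ) * hss
  rw [h1, ang_add, mul_assoc, h2]

lemma switch_norm {x t' d' s g : ℝ} (hs : s = 1 ∨ s = -1) (hg : g ^ 2 ≤ 1 / 2)
    (h1 : t' ≤ x + 1 - g ^ 2) (h2 : x - g ^ 2 ≤ t') :
    ‖(⟨x, d' - s * g⟩ : ℂ) - ⟨t', d'⟩‖ ≤ 1 := by
  have hss := sign_sq hs
  have h3 : ‖(⟨x, d' - s * g⟩ : ℂ) - ⟨t', d'⟩‖ ^ 2 ≤ 1 := by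
    rw [← Complex.normSq_eq_norm_sq, Complex.normSq_apply]
    simp only [Complex.sub_re, Complex.sub_im]
    have e1 : (d' - s * g - d') * (d' - s * g - d') = g ^ 2 := by
      linear_combination g ^ 2 * hss
    rw [e1]
    have e2 : (x - t') * (x - t') ≤ (1 - g ^ 2) ^ 2 := by
      have e3 : |x - t'| ≤ 1 - g ^ 2 := by
        rw [abs_le]; constructor <;> linarith
      calc (x - t') * (x - t') = |x - t'| ^ 2 := by rw [sq_abs]; ring
        _ ≤ (1 - g ^ 2) ^ 2 := pow_le_pow_left₀ (abs_nonneg _) e3 2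
    have e4 : 0 ≤ g ^ 2 := sq_nonneg g
    nlinarith
  have h4 := norm_nonneg ((⟨x, d' - s * g⟩ : ℂ) - ⟨t', d'⟩)
  nlinarith

theorem climb_step {k K : ℕ} {m : ℂ} {θ T : ℝ} {v : ℂ} {s A : ℝ} (hk : 12 ≤ k)
    (hkK : k + 1 ≤ K) (hT : 8 * ((2 : ℝ) ^ K) ^ 2 ≤ T) (hact : Act m θ T K)
    (hs : s = 1 ∨ s = -1) (h : Stat k m θ v s A) :
    Stat (k + 1) m θ v (-s) (A + 52 / ((k : ℝ) + 2) ^ 2) := by
  obtain ⟨τ, d, t, ⟨hτ1, hτ2⟩, ⟨hd1, hd2⟩, hroad, ht1, ht2, hD⟩ := h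
  have hs' : -s = 1 ∨ -s = -1 := by rcases hs with rfl | rfl <;> norm_num
  obtain ⟨τ', d', t0, ⟨hτ1', hτ2'⟩, ⟨hd1', hd2'⟩, hroad'⟩ :=
    road_exists (by omega : 12 ≤ k + 1) m θ (-s) hs'
  have hn := num hk
  have hn' := num (show 12 ≤ k + 1 by omega)
  have hx := next_scale hk
  have hP := P_ge hk
  have hP2 : 4096 ^ 2 ≤ ((2 : ℝ) ^ k) ^ 2 := pow_le_pow_left₀ (by norm_num) hP 2
  have hPP : ((2 : ℝ) ^ (k + 1)) ^ 2 = 4 * (2 ^ k) ^ 2 := by rw [pow_succ]; ring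
  have hTP : 32 * ((2 : ℝ) ^ k) ^ 2 ≤ T := by
    refine le_trans ?_ hT
    have h1 : ((2 : ℝ) ^ (k + 1)) ^ 2 ≤ ((2 : ℝ) ^ K) ^ 2 :=
      pow_le_pow_left₀ (by positivity) (pow_le_pow_right₀ (by norm_num) hkK) 2
    rw [hPP] at h1
    linarith
  have ha := hn.apos
  have hH := hn.Hpos
  have ha' := hn'.apos
  have hH' := hn'.Hpos
  have habsτ : |τ| ≤ 3 * ak k := abs_of_sign hs (by linarith) hτ1 hτ2
  have habsτ' : |τ'| ≤ 3 * ak (k + 1) := abs_of_sign hs' (by linarith) hτ1' hτ2'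
  have habsd : |d| ≤ 3 * Hk k := abs_of_sign hs' (b := 2 * Hk k) (by linarith) (by linarith)
    (by linarith)
  have habsd' : |d'| ≤ 3 * Hk (k + 1) := abs_of_sign hs (b := 2 * Hk (k + 1)) (by linarith)
    (by linarith) (by linarith)
  set δ : ℝ := s * (τ - τ') with hδ
  have hδ1 : 2 * (ak k + ak (k + 1)) ≤ δ := by rw [hδ]; linarith
  have hδ2 : δ ≤ 3 * (ak k + ak (k + 1)) := by rw [hδ]; linarith
  obtain ⟨N, hN1, hN2, hN3, hN4⟩ := step_count hn hx hδ1 hδ2 hd1 hd2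
    (by linarith : 2 * (Hk (k + 1) : ℝ) ≤ s * d') (by linarith : s * d' ≤ 3 * (Hk (k + 1) : ℝ)) ht2
  set g : ℝ := -(s * d) * Real.cos δ + s * d' - (t + N) * Real.sin δ with hg
  obtain ⟨hx1, hx2⟩ := step_x hn hx hδ1 hδ2 hd1 hd2 hN1 hN2
  set x : ℝ := (t + N) * Real.cos δ + -(s * d) * Real.sin δ with hxdef
  have hframe := frame_change (x := t + N) hs hδ hg
  rw [← hxdef] at hframe
  have hδ0 : 0 ≤ δ := by linarith
  have hgs : g ≤ 1 / 100 := by
    have h1 := Real.sin_le hδ0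
    have h2 := hn.asmall
    have h3 := hn'.asmall
    linarith
  have hg2 : g ^ 2 ≤ 1 / 2 := by nlinarith
  -- the point on the new road
  have hM' : (0 : ℝ) < Mk (k + 1) := by exact_mod_cast Mk_pos (k + 1)
  have hM1 : (1 : ℝ) ≤ Mk (k + 1) := by exact_mod_cast Mk_pos (k + 1)
  have hMi : 1 / (Mk (k + 1) : ℝ) ≤ 1 := by rw [div_le_one hM']; exact hM1
  set j : ℤ := ⌊(x + 1 - g ^ 2 - t0) * Mk (k + 1)⌋ with hj
  set t' : ℝ := t0 + j / Mk (k + 1) with ht'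
  have ht'1 : t' ≤ x + 1 - g ^ 2 := by
    have h1 : (j : ℝ) ≤ (x + 1 - g ^ 2 - t0) * Mk (k + 1) := Int.floor_le _
    have h2 : (j : ℝ) / Mk (k + 1) ≤ x + 1 - g ^ 2 - t0 := by rw [div_le_iff₀ hM']; exact h1
    linarith
  have ht'2 : x + 1 - g ^ 2 - 1 / Mk (k + 1) ≤ t' := by
    have h1 : (x + 1 - g ^ 2 - t0) * Mk (k + 1) < (j : ℝ) + 1 := Int.lt_floor_add_one _
    have h2 : x + 1 - g ^ 2 - t0 ≤ ((j : ℝ) + 1) / Mk (k + 1) := by
      rw [le_div_iff₀ hM']; exact h1.le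
    have h3 : ((j : ℝ) + 1) / Mk (k + 1) = j / Mk (k + 1) + 1 / Mk (k + 1) := by ring
    linarith
  have ht'3 : ((2 : ℝ) ^ (k + 1)) ^ 2 / 4 ≤ t' := by rw [hPP]; linarith
  have ht'4 : t' ≤ ((2 : ℝ) ^ (k + 1)) ^ 2 := by
    rw [hPP]; linarith [sq_nonneg g]
  refine ⟨τ', d', t', ⟨hτ1', hτ2'⟩, ⟨hd1', hd2'⟩, hroad'.shift j, ht'3, ht'4, ?_⟩
  -- the walk on the old road
  have hw : D v (m + ang θ * (ang τ * ⟨t + N, d⟩)) ((ang τ * ⟨t, d⟩).re + A + N) := by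
    have h1 : ∀ n : ℕ, m + ang θ * (ang τ * (⟨t + n, d⟩ : ℂ)) = m + ang θ * ang τ * (⟨t, d⟩ + n) := by
      intro n
      rw [mul_assoc]
      congr 3
      apply Complex.ext <;> simp
    rw [h1]
    refine D_road (by rw [norm_mul, norm_ang, norm_ang, one_mul]) N ?_ ?_
    · have := h1 0
      simp only [Nat.cast_zero, add_zero] at this
      rw [← this]
      exact hD
    · intro n hn2
      rw [← h1]
      have h2 : t + ((n * Mk k : ℤ) : ℝ) / Mk k = t + n := by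
        have : (Mk k : ℝ) ≠ 0 := by exact_mod_cast (Mk_pos k).ne'
        push_cast
        field_simp
      have h3 : (n : ℝ) ≤ N := by exact_mod_cast hn2
      have h4 : (0 : ℝ) ≤ n := Nat.cast_nonneg n
      have := mem_road hk (by omega) (by linarith : (2000 : ℝ) ≤ T) hact habsτ habsd hroad
        (n * Mk k : ℤ) (by rw [h2]; linarith) (by rw [h2]; linarith) (by rw [h2]; linarith)
      rwa [h2] at this
  have hq : m + ang θ * (ang τ' * ⟨t', d'⟩) ∈ net :=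
    mem_road (by omega) hkK (by linarith : (2000 : ℝ) ≤ T) hact habsτ' habsd' hroad' j ht'3
      (by rw [hPP]; rw [hPP] at ht'4; linarith) (by rw [hPP] at ht'4; linarith)
  have hstep : D (m + ang θ * (ang τ * ⟨t + N, d⟩)) (m + ang θ * (ang τ' * ⟨t', d'⟩)) 1 := by
    refine D_step hw.choose_spec.choose hq ?_
    rw [hframe]
    have : m + ang θ * (ang τ' * ⟨x, d' - s * g⟩) - (m + ang θ * (ang τ' * ⟨t', d'⟩))
        = ang θ * (ang τ' * ((⟨x, d' - s * g⟩ : ℂ) - ⟨t', d'⟩)) := by ring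
    rw [this, norm_mul, norm_mul, norm_ang, norm_ang, one_mul, one_mul]
    exact switch_norm hs hg2 ht'1 (by linarith)
  refine (hw.trans hstep).mono ?_
  -- the loss
  have hE : (t + N) * Real.cos τ - d * Real.sin τ = x * Real.cos τ' - (d' - s * g) * Real.sin τ' := by
    have := congrArg Complex.re hframe
    rwa [loc_re, loc_re] at this
  have hMQ : ((2 : ℝ) ^ lev k) ^ 2 ≤ Mk (k + 1) := by
    rw [Mk_real]
    refine pow_le_pow_left₀ (by positivity) (pow_le_pow_right₀ (by norm_num) ?_) 2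
    rcases lev_succ k with h | h <;> omega
  have hloss := step_loss (N := N) (y := t' - x) hn hx hδ2 habsτ habsτ' hN3 hN4 hδ0 hMQ
    (by linarith) (by linarith)
  have hsg : s * g * Real.sin τ' ≤ g * |Real.sin τ'| := by
    rcases hs with h | h <;> rw [h]
    · rw [one_mul]
      exact mul_le_mul_of_nonneg_left (le_abs_self _) hN3
    · have := mul_le_mul_of_nonneg_left (neg_abs_le (Real.sin τ')) hN3
      linarith
  have hQ : 12 / ((2 : ℝ) ^ lev k) ^ 2 ≤ 52 / ((k : ℝ) + 2) ^ 2 := by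
    have h1 := Q_sq_ge k
    have h2 : (0 : ℝ) < (2 ^ lev k) ^ 2 := by positivity
    have h3 : (0 : ℝ) < ((k : ℝ) + 2) ^ 2 := by positivity
    rw [div_le_div_iff₀ h2 h3]
    linarith
  rw [loc_re, loc_re]
  linarith

lemma Stat.mono {k : ℕ} {m : ℂ} {θ : ℝ} {v : ℂ} {s A A' : ℝ} (h : Stat k m θ v s A)
    (hA : A ≤ A') : Stat k m θ v s A' := by
  obtain ⟨τ, d, t, h1, h2, h3, h4, h5, h6⟩ := h
  exact ⟨τ, d, t, h1, h2, h3, h4, h5, h6.mono (by linarith)⟩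

end Pool.Agent.Lib8ede
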