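import Pool.Agent.Lib8ede.Net

/-! The number of points of the net in a unit disc. -/

namespace Pool.Agent.Lib8ede

open Complex ComplexConjugate

lemma norm_dir (k : ℕ) (i : ℤ) : ‖dir k i‖ = 1 := by
  unfold dir
  exact Complex.norm_exp_ofReal_mul_I _

lemma dir_mul_conj (k : ℕ) (i : ℤ) : dir k i * conj (dir k i) = 1 := by
  rw [Complex.mul_conj, Complex.normSq_eq_norm_sq, norm_dir]
  norm_num

lemma roadPt_sub (k : ℕ) (c : ℂ) (i : Fin (Ik k)) (n j : ℤ) :
    (roadPt k c i n j - c) * conj (dir k (i : ℕ)) = ⟨(j : ℝ) / Mk k, (off k i : ℝ) + n * Hk k⟩ := by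
  unfold roadPt
  rw [add_sub_cancel_left, mul_right_comm, dir_mul_conj, one_mul]

lemma Hk_large {k : ℕ} (hk : 12 ≤ k) : 4 ≤ Hk k := by
  unfold Hk
  have h1 : lev k + 2 ≤ k := by
    unfold lev
    have h2 : k + 2 < 2 ^ (k - 1) := by
      induction k, hk using Nat.le_induction with
      | base => norm_num
      | succ n hn ih =>
        have : n + 1 - 1 = (n - 1) + 1 := by omega
        rw [this, pow_succ]
        omega
    have := Nat.log_lt_of_lt_pow (by omega) h2
    omega
  calc 4 = 2 ^ 2 := by norm_num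
    _ ≤ 2 ^ (k - lev k) := Nat.pow_le_pow_right (by norm_num) (by omega)

lemma norm_sub_round (z : ℂ) : ‖z - gz (round z.re) (round z.im)‖ ≤ 1 := by
  have h1 := abs_sub_round z.re
  have h2 := abs_sub_round z.im
  refine (Complex.norm_le_abs_re_add_abs_im _).trans ?_
  simp only [gz, Complex.sub_re, Complex.sub_im]
  linarith

lemma norm_sub_round' (z : ℂ) : ‖z - gz (round z.re) (round z.im)‖ ^ 2 ≤ 1 / 2 := by
  have h1 := abs_le.1 (abs_sub_round z.re)
  have h2 := abs_le.1 (abs_sub_round z.im)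
  rw [← Complex.normSq_eq_norm_sq, Complex.normSq_apply]
  simp only [gz, Complex.sub_re, Complex.sub_im]
  nlinarith

lemma aux_phase (x j M : ℝ) (hM : 0 < M) (h : |j / M - x| ≤ 1) : |x * M - j| ≤ M := by
  have h1 : x * M - j = -((j / M - x) * M) := by field_simp; ring
  rw [h1, abs_neg, abs_mul, abs_of_pos hM]
  nlinarith

lemma aux_round (y o H : ℝ) (n : ℤ) (hH : 4 ≤ H) (h : |o + n * H - y| ≤ 1) :
    round ((y - o) / H) = n := by
  have hHpos : (0 : ℝ) < H := by linarith
  rw [abs_le] at h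
  rw [round_eq, Int.floor_eq_iff]
  constructor
  · rw [← sub_le_iff_le_add, le_div_iff₀ hHpos]
    linarith [h.1, h.2]
  · rw [← lt_sub_iff_add_lt, div_lt_iff₀ hHpos]
    linarith [h.1, h.2]

lemma aux_bad (x o H y : ℝ) (n : ℤ) (h1 : |o + n * H - y| ≤ 1) (h2 : |y - x| ≤ 1) :
    |x - o - n * H| ≤ 2 := by
  rw [abs_le] at *
  constructor <;> linarith [h1.1, h1.2, h2.1, h2.2]

/-- the points of one block of scale `k` near `v` -/
def piece (k : ℕ) (c v : ℂ) : Set ℂ :=
  {z | ∃ (i : Fin (Ik k)) (n j : ℤ), z = roadPt k c i n j ∧ ‖z - c‖ ≤ 3 * Bk k ∧ ‖z - v‖ ≤ 1}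

lemma piece_bound {k : ℕ} (hk : 12 ≤ k) (c v : ℂ) :
    (piece k c v).Finite ∧ (piece k c v).ncard ≤ Lk k * (2 * Mk k + 1) := by
  classical
  by_cases hne : ‖v - c‖ ≤ 3 * Bk k + 1
  swap
  · have : piece k c v = ∅ := by
      ext z
      simp only [Set.mem_empty_iff_false, iff_false]
      rintro ⟨i, n, j, -, h1, h2⟩
      apply hne
      have h3 : v - c = (z - c) - (z - v) := by ring
      rw [h3]
      exact (norm_sub_le _ _).trans (by linarith)
    rw [this]
    simp
  set a : ℤ := round (v - c).re with ha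
  set b : ℤ := round (v - c).im with hb
  have hw : ((a, b) : ℤ × ℤ) ∈ Wk k := by
    have h1 := (Complex.abs_re_le_norm (v - c)).trans hne
    have h2 := (Complex.abs_im_le_norm (v - c)).trans hne
    have h3 := abs_sub_round (v - c).re
    have h4 := abs_sub_round (v - c).im
    rw [← ha] at h3
    rw [← hb] at h4
    rw [abs_le] at h1 h2 h3 h4
    unfold Wk
    rw [Finset.mem_product, Finset.mem_Icc, Finset.mem_Icc]
    refine ⟨⟨?_, ?_⟩, ?_, ?_⟩
    · have : (-(3 * (Bk k : ℝ) + 3)) ≤ (a : ℝ) := by linarith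
      exact_mod_cast this
    · have : (a : ℝ) ≤ 3 * (Bk k : ℝ) + 3 := by linarith
      exact_mod_cast this
    · have : (-(3 * (Bk k : ℝ) + 3)) ≤ (b : ℝ) := by linarith
      exact_mod_cast this
    · have : (b : ℝ) ≤ 3 * (Bk k : ℝ) + 3 := by linarith
      exact_mod_cast this
  set badF : Finset (Fin (Ik k)) := Finset.univ.filter fun i => bad k (a, b) i (off k i) with hbadF
  have hbadcard : badF.card ≤ Lk k := by
    have := off_spec (by omega : 2 ≤ k) (a, b) hw
    rw [← Set.ncard_coe_finset] 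
    refine le_trans (le_of_eq ?_) this
    congr 1
    ext i
    simp [hbadF]
  set nn : Fin (Ik k) → ℤ := fun i =>
    round ((((v - c) * conj (dir k (i : ℕ))).im - off k i) / Hk k) with hnn
  set xx : Fin (Ik k) → ℝ := fun i => ((v - c) * conj (dir k (i : ℕ))).re with hxx
  set F : Finset ℂ := badF.biUnion fun i =>
    (Finset.Icc ⌈xx i * Mk k - Mk k⌉ ⌊xx i * Mk k + Mk k⌋).image fun j => roadPt k c i (nn i) j
    with hF
  have hM : (0 : ℝ) < Mk k := by exact_mod_cast Mk_pos k
  have hH : (4 : ℝ) ≤ Hk k := by exact_mod_cast Hk_large hk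
  have hsub : piece k c v ⊆ (F : Set ℂ) := by
    rintro z ⟨i, n, j, hz, -, hzv⟩
    have hco := roadPt_sub k c i n j
    rw [← hz] at hco
    have hre : ((z - c) * conj (dir k (i : ℕ))).re = (j : ℝ) / Mk k := by rw [hco]
    have him : ((z - c) * conj (dir k (i : ℕ))).im = (off k i : ℝ) + n * Hk k := by rw [hco]
    have hd : ‖(z - v) * conj (dir k (i : ℕ))‖ ≤ 1 := by
      rw [norm_mul, RCLike.norm_conj, norm_dir, mul_one]
      exact hzv
    have hdre := (Complex.abs_re_le_norm _).trans hd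
    have hdim := (Complex.abs_im_le_norm _).trans hd
    have e1 : (z - v) * conj (dir k (i : ℕ))
        = (z - c) * conj (dir k (i : ℕ)) - (v - c) * conj (dir k (i : ℕ)) := by ring
    rw [e1, Complex.sub_re, hre] at hdre
    rw [e1, Complex.sub_im, him] at hdim
    have hbadi : bad k (a, b) i (off k i) := by
      refine ⟨n, ?_⟩
      have h1 : ‖(v - c - gz a b) * conj (dir k (i : ℕ))‖ ≤ 1 := by
        rw [norm_mul, RCLike.norm_conj, norm_dir, mul_one]
        exact norm_sub_round _
      have h2 := (Complex.abs_im_le_norm _).trans h1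
      rw [sub_mul, Complex.sub_im] at h2
      exact aux_bad _ _ _ _ n hdim h2
    have hn : nn i = n := aux_round _ _ _ n hH hdim
    rw [Finset.mem_coe, hF, Finset.mem_biUnion]
    refine ⟨i, by simp [hbadF, hbadi], ?_⟩
    rw [Finset.mem_image]
    exact ⟨j, mem_Icc_ceil (aux_phase _ _ _ hM hdre), by rw [hn, hz]⟩
  refine ⟨(Finset.finite_toSet F).subset hsub, ?_⟩
  refine le_trans (Set.ncard_le_ncard hsub (Finset.finite_toSet F)) ?_
  rw [Set.ncard_coe_finset]
  refine le_trans Finset.card_biUnion_le ?_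
  refine le_trans (Finset.sum_le_card_nsmul _ _ (2 * Mk k + 1) ?_) ?_
  · intro i _
    refine le_trans Finset.card_image_le ?_
    exact card_Icc_ceil _ _ _ (by push_cast; exact le_refl _)
  · rw [smul_eq_mul]
    exact Nat.mul_le_mul_right _ hbadcard

end Pool.Agent.Lib8ede
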