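import Pool.Agent.Lib8ede.Count

/-! The polylogarithmic bound for the number of net points in a unit disc. -/

namespace Pool.Agent.Lib8ede

open Complex ComplexConjugate

/-- largest scale with points within distance one of `v` -/
noncomputable def top (v : ℂ) : ℕ := Nat.log 4 ⌈16 * (‖v‖ + 1)⌉₊

lemma le_top {v : ℂ} {k : ℕ} (h : (4 : ℝ) ^ k / 16 ≤ ‖v‖ + 1) : k ≤ top v := by
  unfold top
  have h0 := norm_nonneg v
  refine Nat.le_log_of_pow_le (by norm_num) ?_
  have h1 : ((4 ^ k : ℕ) : ℝ) ≤ 16 * (‖v‖ + 1) := by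
    push_cast
    linarith
  have h2 := h1.trans (Nat.le_ceil _)
  exact_mod_cast h2

lemma top_le (v : ℂ) : (top v : ℝ) + 3 ≤ 9 * Real.log (2 + ‖v‖) := by
  have h0 := norm_nonneg v
  set x := Real.log (2 + ‖v‖) with hx
  have hx0 : 0.69 ≤ x := by
    have h1 : Real.log 2 ≤ x := Real.log_le_log (by norm_num) (by linarith)
    have := Real.log_two_gt_d9
    linarith
  have h1 : (4 : ℝ) ^ top v ≤ 17 * (2 + ‖v‖) := by
    have h2 : 4 ^ top v ≤ ⌈16 * (‖v‖ + 1)⌉₊ := by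
      unfold top
      apply Nat.pow_log_le_self
      have : (0 : ℝ) < 16 * (‖v‖ + 1) := by positivity
      exact (Nat.ceil_pos.2 this).ne'
    have h3 : ((4 ^ top v : ℕ) : ℝ) ≤ (⌈16 * (‖v‖ + 1)⌉₊ : ℝ) := by exact_mod_cast h2
    have h4 : (⌈16 * (‖v‖ + 1)⌉₊ : ℝ) < 16 * (‖v‖ + 1) + 1 := Nat.ceil_lt_add_one (by positivity)
    push_cast at h3
    linarith
  have h2 : (top v : ℝ) * Real.log 4 ≤ Real.log 17 + x := by
    have h3 := Real.log_le_log (by positivity) h1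
    rw [Real.log_pow, Real.log_mul (by norm_num) (by positivity)] at h3
    exact h3
  have h4 : Real.log 4 = 2 * Real.log 2 := by
    rw [show (4 : ℝ) = 2 ^ 2 by norm_num, Real.log_pow]; norm_num
  have h5 : Real.log 17 ≤ 5 * Real.log 2 := by
    have : Real.log 17 ≤ Real.log (2 ^ 5) := Real.log_le_log (by norm_num) (by norm_num)
    rwa [Real.log_pow] at this
  have h6 := Real.log_two_gt_d9
  have h7 := Real.log_two_lt_d9
  rw [h4] at h2
  have h8 : (top v : ℝ) * 1.386 ≤ 3.47 + x := by nlinarith [Nat.cast_nonneg (α := ℝ) (top v)]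
  linarith

lemma ball_count (v : ℂ) : {z ∈ net | ‖z - v‖ ≤ 1}.Finite ∧
    {z ∈ net | ‖z - v‖ ≤ 1}.ncard ≤
      9 + ∑ k ∈ Finset.Icc 12 (top v), 81 * (Lk k * (2 * Mk k + 1)) := by
  classical
  set G : Finset ℂ := (Finset.Icc ⌈v.re - 1⌉ ⌊v.re + 1⌋ ×ˢ Finset.Icc ⌈v.im - 1⌉ ⌊v.im + 1⌋).image
    fun p => gz p.1 p.2 with hG
  set A : ℕ → Finset (ℤ × ℤ) := fun k =>
    Finset.Icc ⌈v.re / Bk k - 4⌉ ⌊v.re / Bk k + 4⌋ ×ˢ
      Finset.Icc ⌈v.im / Bk k - 4⌉ ⌊v.im / Bk k + 4⌋ with hA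
  set U : ℕ → Set ℂ := fun k => ⋃ p ∈ A k, piece k (Bk k * gz p.1 p.2) v with hU
  have hUfin : ∀ k, 12 ≤ k → (U k).Finite ∧ (U k).ncard ≤ 81 * (Lk k * (2 * Mk k + 1)) := by
    intro k hk
    have hf : (U k).Finite :=
      (A k).finite_toSet.biUnion fun p _ => (piece_bound hk _ v).1
    refine ⟨hf, ?_⟩
    have hcard : (A k).card ≤ 81 := by
      simp only [hA]
      rw [Finset.card_product]
      calc _ ≤ 9 * 9 := Nat.mul_le_mul (card_Icc_ceil _ _ 8 (by norm_num))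
            (card_Icc_ceil _ _ 8 (by norm_num))
        _ = 81 := by norm_num
    calc (U k).ncard ≤ ∑ p ∈ A k, (piece k (Bk k * gz p.1 p.2) v).ncard :=
          Finset.set_ncard_biUnion_le _ _
      _ ≤ ∑ _p ∈ A k, Lk k * (2 * Mk k + 1) :=
          Finset.sum_le_sum fun p _ => (piece_bound hk _ v).2
      _ = (A k).card * (Lk k * (2 * Mk k + 1)) := by rw [Finset.sum_const, smul_eq_mul]
      _ ≤ 81 * (Lk k * (2 * Mk k + 1)) := Nat.mul_le_mul_right _ hcard
  have hsub : {z ∈ net | ‖z - v‖ ≤ 1} ⊆ (G : Set ℂ) ∪ ⋃ k ∈ Finset.Icc 12 (top v), U k := by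
    rintro z ⟨hz, hzv⟩
    rcases hz with ⟨a, b, rfl⟩ | ⟨k, hk, a, b, i, n, j, hz, hzc, hzn⟩
    · left
      rw [Finset.mem_coe, hG, Finset.mem_image]
      have h1 := (Complex.abs_re_le_norm _).trans hzv
      have h2 := (Complex.abs_im_le_norm _).trans hzv
      simp only [gz, Complex.sub_re, Complex.sub_im] at h1 h2
      refine ⟨(a, b), ?_, rfl⟩
      rw [Finset.mem_product]
      exact ⟨mem_Icc_ceil (by rw [abs_sub_comm]; exact h1),
        mem_Icc_ceil (by rw [abs_sub_comm]; exact h2)⟩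
    · right
      rw [Set.mem_iUnion₂]
      refine ⟨k, ?_, ?_⟩
      · rw [Finset.mem_Icc]
        refine ⟨hk, le_top (hzn.trans ?_)⟩
        have : z = (z - v) + v := by ring
        rw [this]
        exact (norm_add_le _ _).trans (by linarith)
      · simp only [hU]
        rw [Set.mem_iUnion₂]
        refine ⟨(a, b), ?_, i, n, j, hz, hzc, hzv⟩
        have hB : (1 : ℝ) ≤ Bk k := by exact_mod_cast Bk_pos k
        have hB0 : (0 : ℝ) < Bk k := by linarith
        have hvc : ‖v - Bk k * gz a b‖ ≤ 4 * Bk k := by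
          have : v - Bk k * gz a b = (z - Bk k * gz a b) - (z - v) := by ring
          rw [this]
          exact (norm_sub_le _ _).trans (by linarith)
        have h1 := (Complex.abs_re_le_norm _).trans hvc
        have h2 := (Complex.abs_im_le_norm _).trans hvc
        simp only [gz, Complex.sub_re, Complex.sub_im, Complex.mul_re, Complex.mul_im,
          Complex.natCast_re, Complex.natCast_im, zero_mul, sub_zero, add_zero] at h1 h2
        simp only [hA]
        rw [Finset.mem_product]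
        constructor
        · refine mem_Icc_ceil ?_
          rw [show v.re / Bk k - a = (v.re - Bk k * a) / Bk k by field_simp, abs_div,
            abs_of_pos hB0, div_le_iff₀ hB0]
          exact h1
        · refine mem_Icc_ceil ?_
          rw [show v.im / Bk k - b = (v.im - Bk k * b) / Bk k by field_simp, abs_div,
            abs_of_pos hB0, div_le_iff₀ hB0]
          exact h2
  have hfinU : (⋃ k ∈ Finset.Icc 12 (top v), U k).Finite :=
    (Finset.Icc 12 (top v)).finite_toSet.biUnion fun k hk =>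
      (hUfin k (Finset.mem_Icc.1 hk).1).1
  have hfin : ((G : Set ℂ) ∪ ⋃ k ∈ Finset.Icc 12 (top v), U k).Finite :=
    G.finite_toSet.union hfinU
  refine ⟨hfin.subset hsub, ?_⟩
  refine le_trans (Set.ncard_le_ncard hsub hfin) ?_
  refine le_trans (Set.ncard_union_le _ _) ?_
  refine Nat.add_le_add ?_ ?_
  · rw [Set.ncard_coe_finset, hG]
    refine le_trans Finset.card_image_le ?_
    rw [Finset.card_product]
    calc _ ≤ 3 * 3 := Nat.mul_le_mul (card_Icc_ceil _ _ 2 (by norm_num))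
          (card_Icc_ceil _ _ 2 (by norm_num))
      _ = 9 := by norm_num
  · refine le_trans (Finset.set_ncard_biUnion_le _ _) ?_
    exact Finset.sum_le_sum fun k hk => (hUfin k (Finset.mem_Icc.1 hk).1).2

lemma four_pow_lev (k : ℕ) : 4 ^ lev k ≤ (k + 2) ^ 2 := by
  have h : 2 ^ lev k ≤ k + 2 := Nat.pow_log_le_self 2 (by omega)
  calc 4 ^ lev k = (2 ^ lev k) ^ 2 := by
        rw [← pow_mul, mul_comm, pow_mul]; norm_num
    _ ≤ (k + 2) ^ 2 := Nat.pow_le_pow_left h 2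

theorem degree_bound (v : ℂ) : {z ∈ net | ‖z - v‖ ≤ 1}.Finite ∧
    (({z ∈ net | ‖z - v‖ ≤ 1}.ncard : ℕ) : ℝ) ≤ 1200000000 * Real.log (2 + ‖v‖) ^ 5 := by
  obtain ⟨h1, h2⟩ := ball_count v
  refine ⟨h1, ?_⟩
  have h3 : ∑ k ∈ Finset.Icc 12 (top v), 81 * (Lk k * (2 * Mk k + 1))
      ≤ 19440 * (top v + 3) ^ 5 := by
    have h4 : ∀ k ∈ Finset.Icc 12 (top v), 81 * (Lk k * (2 * Mk k + 1))
        ≤ 19440 * (top v + 3) ^ 4 := by
      intro k hk
      obtain ⟨hk1, hk2⟩ := Finset.mem_Icc.1 hk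
      have h5 := four_pow_lev k
      have h6 : Lk k ≤ 80 * (k + 2) ^ 2 := by
        unfold Lk
        nlinarith
      have h7 : 2 * Mk k + 1 ≤ 3 * (k + 2) ^ 2 := by
        unfold Mk
        nlinarith
      calc 81 * (Lk k * (2 * Mk k + 1)) ≤ 81 * ((80 * (k + 2) ^ 2) * (3 * (k + 2) ^ 2)) :=
            Nat.mul_le_mul_left _ (Nat.mul_le_mul h6 h7)
        _ = 19440 * (k + 2) ^ 4 := by ring
        _ ≤ 19440 * (top v + 3) ^ 4 :=
            Nat.mul_le_mul_left _ (Nat.pow_le_pow_left (by omega) 4)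
    refine le_trans (Finset.sum_le_card_nsmul _ _ _ h4) ?_
    rw [smul_eq_mul, Nat.card_Icc]
    calc (top v + 1 - 12) * (19440 * (top v + 3) ^ 4)
        ≤ (top v + 3) * (19440 * (top v + 3) ^ 4) := Nat.mul_le_mul_right _ (by omega)
      _ = 19440 * (top v + 3) ^ 5 := by ring
  have h4 : {z ∈ net | ‖z - v‖ ≤ 1}.ncard ≤ 20000 * (top v + 3) ^ 5 := by
    have h5 : 1 ≤ (top v + 3) ^ 5 := Nat.one_le_pow _ _ (by omega)
    omega
  have h5 : (({z ∈ net | ‖z - v‖ ≤ 1}.ncard : ℕ) : ℝ) ≤ 20000 * ((top v : ℝ) + 3) ^ 5 := by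
    exact_mod_cast h4
  refine h5.trans ?_
  have h6 := top_le v
  have h7 : ((top v : ℝ) + 3) ^ 5 ≤ (9 * Real.log (2 + ‖v‖)) ^ 5 := by gcongr
  rw [mul_pow] at h7
  have h8 : 0 ≤ Real.log (2 + ‖v‖) ^ 5 :=
    pow_nonneg (Real.log_nonneg (by linarith [norm_nonneg v])) 5
  nlinarith

end Pool.Agent.Lib8ede
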