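import Pool.Agent.Lib8ede.Avg

/-! The multi-scale net of roads and the choice of the offsets. -/

namespace Pool.Agent.Lib8ede

open Complex ComplexConjugate

/-- number of binary digits of the scale index -/
def lev (k : ℕ) : ℕ := Nat.log 2 (k + 2)
/-- lateral spacing of the roads of one direction at scale `k` -/
def Hk (k : ℕ) : ℕ := 2 ^ (k - lev k)
/-- number of directions at scale `k` -/
def Ik (k : ℕ) : ℕ := 2 ^ (k + lev k + 3)
/-- number of phases at scale `k` -/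
def Mk (k : ℕ) : ℕ := 4 ^ lev k
/-- side length of the blocks at scale `k` -/
def Bk (k : ℕ) : ℕ := 32 * 4 ^ k
/-- load bound at scale `k` -/
def Lk (k : ℕ) : ℕ := 60 * 4 ^ lev k + (4 * k + 16)

/-- the `i`-th direction at scale `k` -/
noncomputable def dir (k : ℕ) (i : ℤ) : ℂ :=
  Complex.exp (((2 * Real.pi * i / Ik k : ℝ) : ℂ) * Complex.I)

/-- a Gaussian integer -/
def gz (a b : ℤ) : ℂ := ⟨(a : ℝ), (b : ℝ)⟩

/-- the offset `o` puts a road of direction `i` close to the point `w` -/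
def bad (k : ℕ) (w : ℤ × ℤ) (i : Fin (Ik k)) (o : ℕ) : Prop :=
  ∃ n : ℤ, |(gz w.1 w.2 * conj (dir k (i : ℕ))).im - o - n * Hk k| ≤ 2

lemma lev_le {k : ℕ} (hk : 2 ≤ k) : lev k ≤ k := by
  unfold lev
  have h1 : k + 2 < 2 ^ (k + 1) := by
    induction k, hk using Nat.le_induction with
    | base => norm_num
    | succ n hn ih => rw [pow_succ]; omega
  have := Nat.log_lt_of_lt_pow (by omega) h1
  omega

lemma Hk_pos (k : ℕ) : 0 < Hk k := by unfold Hk; positivity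
lemma Ik_pos (k : ℕ) : 0 < Ik k := by unfold Ik; positivity
lemma Mk_pos (k : ℕ) : 0 < Mk k := by unfold Mk; positivity
lemma Bk_pos (k : ℕ) : 0 < Bk k := by unfold Bk; positivity

lemma Ik_eq {k : ℕ} (hk : 2 ≤ k) : Ik k = 8 * 4 ^ lev k * Hk k := by
  unfold Ik Hk
  have h := lev_le hk
  obtain ⟨d, hd⟩ := Nat.exists_eq_add_of_le h
  rw [show k - lev k = d by omega, show k + lev k + 3 = d + 2 * lev k + 3 by omega,
    pow_add, pow_add, pow_mul]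
  norm_num
  ring

lemma card_Icc_ceil (x r : ℝ) (n : ℕ) (hr : 2 * r ≤ n) :
    (Finset.Icc ⌈x - r⌉ ⌊x + r⌋).card ≤ n + 1 := by
  rw [Int.card_Icc]
  have h1 : ((⌊x + r⌋ : ℤ) : ℝ) ≤ x + r := Int.floor_le _
  have h2 : x - r ≤ ((⌈x - r⌉ : ℤ) : ℝ) := Int.le_ceil _
  have h3 : (((⌊x + r⌋ + 1 - ⌈x - r⌉ : ℤ)) : ℝ) ≤ ((n + 1 : ℕ) : ℝ) := by
    push_cast
    linarith
  have h4 : (⌊x + r⌋ + 1 - ⌈x - r⌉ : ℤ) ≤ ((n + 1 : ℕ) : ℤ) := by exact_mod_cast h3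
  omega

lemma mem_Icc_ceil {x r : ℝ} {m : ℤ} (h : |x - m| ≤ r) : m ∈ Finset.Icc ⌈x - r⌉ ⌊x + r⌋ := by
  obtain ⟨h1, h2⟩ := abs_le.1 h
  rw [Finset.mem_Icc]
  exact ⟨Int.ceil_le.2 (by linarith), Int.le_floor.2 (by linarith)⟩

lemma bad_ncard (k : ℕ) (w : ℤ × ℤ) (i : Fin (Ik k)) :
    {o : ℕ | o < Hk k ∧ bad k w i o}.ncard ≤ 5 := by
  classical
  set ν : ℝ := (gz w.1 w.2 * conj (dir k (i : ℕ))).im with hν
  have hsub : {o : ℕ | o < Hk k ∧ bad k w i o} ⊆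
      (((Finset.Icc ⌈ν - 2⌉ ⌊ν + 2⌋).image fun m : ℤ => (m % (Hk k : ℤ)).toNat : Finset ℕ) :
        Set ℕ) := by
    rintro o ⟨ho, n, hn⟩
    rw [Finset.mem_coe, Finset.mem_image]
    refine ⟨(o : ℤ) + n * Hk k, mem_Icc_ceil ?_, ?_⟩
    · push_cast
      rw [← sub_sub]
      exact hn
    · rw [Int.add_mul_emod_self_right, Int.emod_eq_of_lt (by omega) (by exact_mod_cast ho)]
      simp
  refine le_trans (Set.ncard_le_ncard hsub (Finset.finite_toSet _)) ?_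
  rw [Set.ncard_coe_finset]
  refine le_trans Finset.card_image_le ?_
  exact card_Icc_ceil ν 2 4 (by norm_num)

lemma exp_ten : Real.exp 10 ≤ 2 ^ 15 := by
  have h := Real.exp_one_lt_d9
  have h2 : Real.exp 10 = Real.exp 1 ^ 10 := by
    rw [← Real.exp_nat_mul]; norm_num
  rw [h2]
  calc Real.exp 1 ^ 10 ≤ (2.7182818286 : ℝ) ^ 10 := by gcongr
    _ ≤ 2 ^ 15 := by norm_num

lemma pow_bound (H c : ℕ) (hH : 0 < H) :
    (H + 5) ^ (8 * c * H) ≤ 2 ^ (60 * c) * H ^ (8 * c * H) := by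
  have hH' : (0 : ℝ) < H := by exact_mod_cast hH
  have h1 : ((H : ℝ) + 5) ^ (2 * H) ≤ 2 ^ 15 * (H : ℝ) ^ (2 * H) := by
    have h2 : 5 / (H : ℝ) + 1 ≤ Real.exp (5 / H) := Real.add_one_le_exp _
    have h3 : (5 / (H : ℝ) + 1) ^ (2 * H) ≤ Real.exp (5 / H) ^ (2 * H) := by
      gcongr
    have h4 : Real.exp (5 / H) ^ (2 * H) = Real.exp 10 := by
      rw [← Real.exp_nat_mul]
      congr 1
      push_cast
      field_simp
      norm_num
    have h5 : ((H : ℝ) + 5) ^ (2 * H) = (5 / (H : ℝ) + 1) ^ (2 * H) * (H : ℝ) ^ (2 * H) := by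
      rw [← mul_pow]
      congr 1
      field_simp
      ring
    rw [h5]
    have h6 := h3.trans (h4.le.trans exp_ten)
    gcongr
  have h7 : (((H + 5) ^ (8 * c * H) : ℕ) : ℝ) ≤ ((2 ^ (60 * c) * H ^ (8 * c * H) : ℕ) : ℝ) := by
    push_cast
    have e1 : ((H : ℝ) + 5) ^ (8 * c * H) = (((H : ℝ) + 5) ^ (2 * H)) ^ (4 * c) := by
      rw [← pow_mul]; congr 1; ring
    have e2 : (2 : ℝ) ^ (60 * c) * (H : ℝ) ^ (8 * c * H)
        = (2 ^ 15 * (H : ℝ) ^ (2 * H)) ^ (4 * c) := by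
      rw [mul_pow, ← pow_mul, ← pow_mul]
      congr 2 <;> ring
    rw [e1, e2]
    gcongr
  exact_mod_cast h7

/-- the test points at scale `k` -/
noncomputable def Wk (k : ℕ) : Finset (ℤ × ℤ) :=
  Finset.Icc (-(3 * Bk k + 3 : ℤ)) (3 * Bk k + 3) ×ˢ Finset.Icc (-(3 * Bk k + 3 : ℤ)) (3 * Bk k + 3)

lemma Wk_card (k : ℕ) : (Wk k).card ≤ 2 ^ (4 * k + 16) := by
  unfold Wk
  rw [Finset.card_product, Int.card_Icc]
  have h1 : ((3 * (Bk k : ℤ) + 3 + 1 - -(3 * (Bk k : ℤ) + 3)).toNat) = 6 * Bk k + 7 := by omega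
  rw [h1]
  have h2 : 6 * Bk k + 7 ≤ 2 ^ (2 * k + 8) := by
    unfold Bk
    rw [pow_add, pow_mul]
    have : 1 ≤ 4 ^ k := Nat.one_le_pow _ _ (by norm_num)
    norm_num
    omega
  calc (6 * Bk k + 7) * (6 * Bk k + 7) ≤ 2 ^ (2 * k + 8) * 2 ^ (2 * k + 8) :=
        Nat.mul_le_mul h2 h2
    _ = 2 ^ (4 * k + 16) := by rw [← pow_add]; congr 1; ring

lemma off_exists (k : ℕ) : ∃ o : Fin (Ik k) → ℕ, 2 ≤ k →
    ∀ w ∈ Wk k, {i : Fin (Ik k) | bad k w i (o i)}.ncard ≤ Lk k := by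
  by_cases hk : 2 ≤ k
  swap
  · exact ⟨fun _ => 0, fun h => absurd h hk⟩
  obtain ⟨o, -, ho⟩ := exists_offsets (Ik k) (Hk k) 5 (Hk_pos k) (Wk k) (bad k)
    (fun w _ i => bad_ncard k w i)
  refine ⟨o, fun _ w hw => ?_⟩
  by_contra hcon
  push Not at hcon
  have h1 := ho w hw
  have h2 : (Wk k).card * (Hk k + 5) ^ Ik k ≤ 2 ^ Lk k * Hk k ^ Ik k := by
    rw [Ik_eq hk]
    calc (Wk k).card * (Hk k + 5) ^ (8 * 4 ^ lev k * Hk k)
        ≤ 2 ^ (4 * k + 16) * (2 ^ (60 * 4 ^ lev k) * Hk k ^ (8 * 4 ^ lev k * Hk k)) :=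
          Nat.mul_le_mul (Wk_card k) (pow_bound _ _ (Hk_pos k))
      _ = 2 ^ Lk k * Hk k ^ (8 * 4 ^ lev k * Hk k) := by
          unfold Lk
          rw [pow_add]
          ring
  have h3 : 0 < Hk k ^ Ik k := pow_pos (Hk_pos k) _
  have h4 : 2 ^ Lk k < 2 ^ ({i : Fin (Ik k) | bad k w i (o i)}.ncard) :=
    Nat.pow_lt_pow_right (by norm_num) hcon
  have h5 := Nat.mul_lt_mul_of_pos_right h4 h3
  omega

/-- the offset of the roads of direction `i` at scale `k` -/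
noncomputable def off (k : ℕ) (i : Fin (Ik k)) : ℕ := (off_exists k).choose i

lemma off_spec {k : ℕ} (hk : 2 ≤ k) (w : ℤ × ℤ) (hw : w ∈ Wk k) :
    {i : Fin (Ik k) | bad k w i (off k i)}.ncard ≤ Lk k :=
  (off_exists k).choose_spec hk w hw

/-- a road point: scale `k`, centre `c` of the block, direction `i`, road number `n`, point number `j` -/
noncomputable def roadPt (k : ℕ) (c : ℂ) (i : Fin (Ik k)) (n j : ℤ) : ℂ :=
  c + dir k (i : ℕ) * ⟨(j : ℝ) / Mk k, (off k i : ℝ) + n * Hk k⟩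

/-- the net: Gaussian integers and road points -/
noncomputable def net : Set ℂ :=
  {z | (∃ a b : ℤ, z = gz a b) ∨
    ∃ k, 12 ≤ k ∧ ∃ (a b : ℤ) (i : Fin (Ik k)) (n j : ℤ),
      z = roadPt k (Bk k * gz a b) i n j ∧ ‖z - Bk k * gz a b‖ ≤ 3 * Bk k ∧
        (4 : ℝ) ^ k / 16 ≤ ‖z‖}

end Pool.Agent.Lib8ede
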