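import Pool.Agent.Lib8ede.Top
import Pool.Agent.Lib8ede.Degree

/-! Distances in the net. -/

namespace Pool.Agent.Lib8ede

open Complex ComplexConjugate

lemma re_im_split (z : ℂ) : z = (z.re : ℂ) + (z.im : ℂ) * Complex.I := (Complex.re_add_im z).symm

lemma norm_im_part (z : ℂ) : ‖(z.im : ℂ) * Complex.I‖ = |z.im| := by
  rw [norm_mul, Complex.norm_I, mul_one, Complex.norm_real, Real.norm_eq_abs]

lemma scale_mono {k K : ℕ} (h : k ≤ K) : ((2 : ℝ) ^ k) ≤ 2 ^ K :=
  pow_le_pow_right₀ (by norm_num) h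

lemma half_le {m : ℂ} {θ T x : ℝ} (hmin : ∀ x : ℝ, 0 ≤ x → x ≤ T → ‖m‖ ≤ ‖m + ang θ * x‖)
    (hx0 : 0 ≤ x) (hx : x ≤ T) : x / 2 ≤ ‖m + ang θ * x‖ := by
  have h1 := hmin x hx0 hx
  have h2 : x ≤ ‖m + ang θ * x‖ + ‖m‖ := by
    have e1 : ‖ang θ * (x : ℂ)‖ = x := by
      rw [norm_mul, norm_ang, one_mul, Complex.norm_real, Real.norm_eq_abs, abs_of_nonneg hx0]
    have e2 := norm_sub_le (m + ang θ * (x : ℂ)) m
    rw [add_sub_cancel_left, e1] at e2
    exact e2
  linarith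

lemma act_start {K : ℕ} {m : ℂ} {θ T : ℝ}
    (hmin : ∀ x : ℝ, 0 ≤ x → x ≤ T → ‖m‖ ≤ ‖m + ang θ * x‖) (hT : 0 ≤ T) : Act m θ T K := by
  intro k hk _ z hz1 hz2 hz3
  have hP := P_ge hk
  have hz0 : 0 ≤ z.re := le_trans (by positivity) hz1
  have h1 := half_le hmin hz0 (by linarith)
  have h2 : m + ang θ * z = (m + ang θ * (z.re : ℂ)) - -(ang θ * ((z.im : ℂ) * Complex.I)) := by
    conv_lhs => rw [re_im_split z]
    ring
  have h3 : ‖-(ang θ * ((z.im : ℂ) * Complex.I))‖ = |z.im| := by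
    rw [norm_neg, norm_mul, norm_ang, one_mul, norm_im_part]
  have h4 := norm_sub_norm_le (m + ang θ * (z.re : ℂ)) (-(ang θ * ((z.im : ℂ) * Complex.I)))
  rw [← h2, h3] at h4
  rw [four_pow_real]
  nlinarith

lemma act_end {K : ℕ} {m : ℂ} {θ T : ℝ} (hK : 12 ≤ K) (hT : 8 * ((2 : ℝ) ^ K) ^ 2 ≤ T)
    (hmin : ∀ x : ℝ, 0 ≤ x → x ≤ T → ‖m‖ ≤ ‖m + ang θ * x‖) :
    Act (m + ang θ * T) (θ + Real.pi) T K := by
  intro k hk hkK z hz1 hz2 hz3
  have hP := P_ge hK
  have hPk : ((2 : ℝ) ^ k) ≤ 2 ^ K := scale_mono hkK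
  have hPk2 : ((2 : ℝ) ^ k) ^ 2 ≤ (2 ^ K) ^ 2 := pow_le_pow_left₀ (by positivity) hPk 2
  have hz0 : 0 ≤ z.re := le_trans (by positivity) hz1
  have hT0 : 0 ≤ T := le_trans (by positivity) hT
  have h1 := half_le (x := T - z.re) hmin (by linarith) (by linarith)
  have h2 : m + ang θ * T + ang (θ + Real.pi) * z
      = (m + ang θ * ((T - z.re : ℝ) : ℂ)) - (ang θ * ((z.im : ℂ) * Complex.I)) := by
    rw [ang_pi]
    conv_lhs => rw [re_im_split z]
    push_cast
    ring
  have h3 : ‖ang θ * ((z.im : ℂ) * Complex.I)‖ = |z.im| := by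
    rw [norm_mul, norm_ang, one_mul, norm_im_part]
  have h4 := norm_sub_norm_le (m + ang θ * ((T - z.re : ℝ) : ℂ)) (ang θ * ((z.im : ℂ) * Complex.I))
  rw [← h2, h3] at h4
  rw [four_pow_real]
  nlinarith

theorem ray {m : ℂ} {θ T : ℝ} (hT : 0 ≤ T)
    (hmin : ∀ x : ℝ, 0 ≤ x → x ≤ T → ‖m‖ ≤ ‖m + ang θ * x‖) :
    D (rnd m) (rnd (m + ang θ * T)) (T + 200000000) := by
  by_cases hsmall : T < 8 * ((2 : ℝ) ^ 12) ^ 2
  · refine (D_local (rnd_mem m) (rnd_mem _)).mono ?_
    have h1 : ‖rnd m - rnd (m + ang θ * T)‖ ≤ 1 + (T + 1) := by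
      have e1 : rnd m - rnd (m + ang θ * T)
          = -(m - rnd m) - (ang θ * T - ((m + ang θ * T) - rnd (m + ang θ * T))) := by ring
      rw [e1]
      refine (norm_sub_le _ _).trans ?_
      rw [norm_neg]
      refine add_le_add (norm_sub_rnd m) ?_
      refine (norm_sub_le _ _).trans ?_
      refine add_le_add (le_of_eq ?_) (norm_sub_rnd _)
      rw [norm_mul, norm_ang, one_mul, Complex.norm_real, Real.norm_eq_abs, abs_of_nonneg hT]
    norm_num at hsmall
    linarith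
  · push Not at hsmall
    set n : ℕ := ⌊T / 8⌋₊ with hn
    have hn0 : n ≠ 0 := by
      have : 1 ≤ n := by
        rw [hn]
        apply Nat.le_floor
        norm_num at hsmall ⊢
        linarith
      omega
    set K : ℕ := Nat.log 4 n with hK
    have h1 : 4 ^ K ≤ n := Nat.pow_log_le_self 4 hn0
    have h2 : n < 4 ^ (K + 1) := Nat.lt_pow_succ_log_self (by norm_num) n
    have h3 : (n : ℝ) ≤ T / 8 := Nat.floor_le (by positivity)
    have h4 : T / 8 < (n : ℝ) + 1 := Nat.lt_floor_add_one _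
    have h5 : ((4 : ℝ) ^ K) ≤ n := by exact_mod_cast h1
    have h6 : ((n : ℝ) + 1) ≤ 4 ^ (K + 1) := by exact_mod_cast h2
    rw [four_pow_real] at h5
    rw [pow_succ, four_pow_real] at h6
    have hT1 : 8 * ((2 : ℝ) ^ K) ^ 2 ≤ T := by linarith
    have hT2 : T ≤ 32 * ((2 : ℝ) ^ K) ^ 2 := by linarith
    have hK12 : 12 ≤ K := by
      rw [hK]
      apply Nat.le_log_of_pow_le (by norm_num)
      rw [hn]
      apply Nat.le_floor
      norm_num at hsmall ⊢
      linarith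
    exact (join hK12 hT1 hT2 (act_start hmin hT) (act_end hK12 hT1 hmin)).mono (by linarith)

/-- the distance in the graph is at most the Euclidean distance plus a constant -/
theorem dist_upper {x y : ℂ} (hx : x ∈ net) (hy : y ∈ net) : D x y (‖x - y‖ + 500000000) := by
  -- closest point of the segment to the origin
  obtain ⟨t0, ht0, hmin⟩ := (isCompact_Icc (a := (0 : ℝ)) (b := 1)).exists_isMinOn
    ⟨0, by simp⟩ (f := fun t : ℝ => ‖x + (t : ℂ) * (y - x)‖) (by fun_prop)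
  set m : ℂ := x + (t0 : ℂ) * (y - x) with hm
  have hmin' : ∀ t : ℝ, 0 ≤ t → t ≤ 1 → ‖m‖ ≤ ‖x + (t : ℂ) * (y - x)‖ :=
    fun t h0 h1 => hmin (show t ∈ Set.Icc (0 : ℝ) 1 from ⟨h0, h1⟩)
  have h0 := ht0.1
  have h1 := ht0.2
  have key : ∀ z : ℂ, z ∈ net → (∀ t : ℝ, 0 ≤ t → t ≤ 1 → ‖m‖ ≤ ‖m + (t : ℂ) * (z - m)‖) →
      D (rnd m) z (‖z - m‖ + 200000001) := by
    intro z hz hmz
    set T := ‖z - m‖ with hT
    set θ := Complex.arg (z - m) with hθ
    have e1 : z - m = ang θ * T := by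
      have := Complex.norm_mul_exp_arg_mul_I (z - m)
      rw [← hT, ← hθ] at this
      rw [← this]
      unfold ang
      ring
    have hT0 : 0 ≤ T := norm_nonneg _
    have hr := ray (m := m) (θ := θ) hT0 (by
      intro x' hx0 hx1
      by_cases hTz : T = 0
      · have : x' = 0 := by linarith
        rw [this]
        simp
      · have hTpos : 0 < T := lt_of_le_of_ne hT0 (Ne.symm hTz)
        have := hmz (x' / T) (by positivity) (by rw [div_le_one hTpos]; exact hx1)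
        rw [e1] at this
        have e2 : m + ((x' / T : ℝ) : ℂ) * (ang θ * T) = m + ang θ * x' := by
          have hTC : (T : ℂ) ≠ 0 := by exact_mod_cast hTz
          push_cast
          field_simp
        rwa [e2] at this)
    have e3 : m + ang θ * T = z := by rw [← e1]; ring
    rw [e3] at hr
    have h2 : D (rnd z) z 1 := (D_step hz (rnd_mem z) (norm_sub_rnd z)).symm
    exact (hr.trans h2).mono (by linarith)
  have hy' := key y hy (by
    intro t ht ht'
    have : m + (t : ℂ) * (y - m) = x + ((t0 + t * (1 - t0) : ℝ) : ℂ) * (y - x) := by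
      rw [hm]; push_cast; ring
    rw [this]
    apply hmin'
    · nlinarith
    · nlinarith)
  have hx' := key x hx (by
    intro t ht ht'
    have : m + (t : ℂ) * (x - m) = x + ((t0 * (1 - t) : ℝ) : ℂ) * (y - x) := by
      rw [hm]; push_cast; ring
    rw [this]
    apply hmin'
    · apply mul_nonneg h0; linarith
    · nlinarith)
  refine (hx'.symm.trans hy').mono ?_
  have e1 : ‖x - m‖ = t0 * ‖x - y‖ := by
    have : x - m = (t0 : ℂ) * (x - y) := by rw [hm]; ring
    rw [this, norm_mul, Complex.norm_real, Real.norm_eq_abs, abs_of_nonneg h0]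
  have e2 : ‖y - m‖ = (1 - t0) * ‖x - y‖ := by
    have : y - m = ((1 - t0 : ℝ) : ℂ) * (y - x) := by rw [hm]; push_cast; ring
    rw [this, norm_mul, Complex.norm_real, Real.norm_eq_abs, abs_of_nonneg (by linarith),
      norm_sub_rev y x]
  rw [e1, e2]
  linarith

lemma norm_le_length {x y : net} (w : (unitGraph net).Walk x y) : ‖(x : ℂ) - y‖ ≤ w.length := by
  induction w with
  | nil => simp
  | @cons a b c hab w ih =>
    have h1 : ‖(a : ℂ) - b‖ ≤ 1 := hab.2
    have h2 : ‖(a : ℂ) - c‖ ≤ ‖(a : ℂ) - b‖ + ‖(b : ℂ) - c‖ := by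
      have := norm_add_le ((a : ℂ) - b) ((b : ℂ) - c)
      simpa using this
    rw [SimpleGraph.Walk.length_cons]
    push_cast
    linarith

end Pool.Agent.Lib8ede
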