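import Pool.Agent.Lib8ede.Count

/-! Existence of tilted roads near a given line. -/

namespace Pool.Agent.Lib8ede

open Complex ComplexConjugate

/-- the angle between consecutive directions -/
noncomputable def ak (k : ℕ) : ℝ := 2 * Real.pi / Ik k

lemma ak_pos (k : ℕ) : 0 < ak k := by
  unfold ak
  have : (0 : ℝ) < Ik k := by exact_mod_cast Ik_pos k
  positivity

/-- the unit vector of angle `t` -/
noncomputable def ang (t : ℝ) : ℂ := Complex.exp ((t : ℂ) * Complex.I)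

lemma norm_ang (t : ℝ) : ‖ang t‖ = 1 := Complex.norm_exp_ofReal_mul_I _

lemma ang_add (s t : ℝ) : ang (s + t) = ang s * ang t := by
  unfold ang
  rw [← Complex.exp_add]
  congr 1
  push_cast
  ring

lemma ang_mul_conj (t : ℝ) : ang t * conj (ang t) = 1 := by
  rw [Complex.mul_conj, Complex.normSq_eq_norm_sq, norm_ang]
  norm_num

lemma ang_re (t : ℝ) : (ang t).re = Real.cos t := Complex.exp_ofReal_mul_I_re t
lemma ang_im (t : ℝ) : (ang t).im = Real.sin t := Complex.exp_ofReal_mul_I_im t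

lemma dir_eq_ang (k : ℕ) (i : ℤ) : dir k i = ang (ak k * i) := by
  unfold dir ang ak
  congr 3
  ring

lemma dir_mod (k : ℕ) (i : ℤ) : dir k (i % (Ik k : ℤ)) = dir k i := by
  rw [dir_eq_ang, dir_eq_ang]
  have hI : (Ik k : ℝ) ≠ 0 := by exact_mod_cast (Ik_pos k).ne'
  obtain ⟨q, hq⟩ : ∃ q : ℤ, i = (Ik k : ℤ) * q + i % (Ik k : ℤ) :=
    ⟨i / (Ik k : ℤ), (Int.mul_ediv_add_emod i (Ik k : ℤ)).symm⟩
  have h1 : (i : ℝ) = (Ik k : ℝ) * (q : ℝ) + ((i % (Ik k : ℤ) : ℤ) : ℝ) := by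
    exact_mod_cast hq
  have h3 : ak k * (Ik k : ℝ) = 2 * Real.pi := by unfold ak; field_simp
  have h2 : ak k * (i : ℝ) = (q : ℝ) * (2 * Real.pi) + ak k * ((i % (Ik k : ℤ) : ℤ) : ℝ) := by
    linear_combination (ak k) * h1 + (q : ℝ) * h3
  rw [h2, ang_add]
  have h4 : ang ((q : ℝ) * (2 * Real.pi)) = 1 := by
    unfold ang
    have := Complex.exp_int_mul_two_pi_mul_I q
    rw [← this]
    congr 1
    push_cast
    ring
  rw [h4, one_mul]

/-- choice of a lattice point in a half-open window, with sign -/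
lemma exists_mul (a x : ℝ) (ha : 0 < a) (s : ℝ) (hs : s = 1 ∨ s = -1) :
    ∃ i : ℤ, 2 * a ≤ s * (a * i - x) ∧ s * (a * i - x) ≤ 3 * a := by
  rcases hs with rfl | rfl
  · refine ⟨⌈(x + 2 * a) / a⌉, ?_, ?_⟩
    · have h1 : (x + 2 * a) / a ≤ ⌈(x + 2 * a) / a⌉ := Int.le_ceil _
      rw [div_le_iff₀ ha] at h1
      linarith
    · have h1 : (⌈(x + 2 * a) / a⌉ : ℝ) < (x + 2 * a) / a + 1 := Int.ceil_lt_add_one _
      have h2 : a * (⌈(x + 2 * a) / a⌉ : ℝ) < a * ((x + 2 * a) / a + 1) :=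
        mul_lt_mul_of_pos_left h1 ha
      have h3 : a * ((x + 2 * a) / a + 1) = x + 3 * a := by field_simp; ring
      linarith
  · refine ⟨⌊(x - 2 * a) / a⌋, ?_, ?_⟩
    · have h1 : (⌊(x - 2 * a) / a⌋ : ℝ) ≤ (x - 2 * a) / a := Int.floor_le _
      rw [le_div_iff₀ ha] at h1
      linarith
    · have h1 : (x - 2 * a) / a < (⌊(x - 2 * a) / a⌋ : ℝ) + 1 := Int.lt_floor_add_one _
      have h2 : a * ((x - 2 * a) / a) < a * ((⌊(x - 2 * a) / a⌋ : ℝ) + 1) :=
        mul_lt_mul_of_pos_left h1 ha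
      have h3 : a * ((x - 2 * a) / a) = x - 2 * a := by field_simp
      linarith

/-- A road of level `k` in the frame with origin `m` and direction `ang θ`: tilt `τ`, offset `d`,
the road points have longitudinal coordinates `t + j / M`. -/
def IsRoad (k : ℕ) (m : ℂ) (θ τ d t : ℝ) : Prop :=
  ∀ j : ℤ, ‖ang τ * ⟨t + j / Mk k, d⟩‖ ≤ Bk k →
    (4 : ℝ) ^ k / 16 ≤ ‖m + ang θ * (ang τ * ⟨t + j / Mk k, d⟩)‖ →
      m + ang θ * (ang τ * ⟨t + j / Mk k, d⟩) ∈ net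

theorem road_exists {k : ℕ} (hk : 12 ≤ k) (m : ℂ) (θ s : ℝ) (hs : s = 1 ∨ s = -1) :
    ∃ τ d t : ℝ, (2 * ak k ≤ s * τ ∧ s * τ ≤ 3 * ak k) ∧
      (2 * (Hk k : ℝ) ≤ -(s * d) ∧ -(s * d) ≤ 3 * Hk k) ∧ IsRoad k m θ τ d t := by
  obtain ⟨i, hi1, hi2⟩ := exists_mul (ak k) θ (ak_pos k) s hs
  have hIpos : (0 : ℤ) < Ik k := by exact_mod_cast Ik_pos k
  have hHpos : (0 : ℝ) < Hk k := by exact_mod_cast Hk_pos k
  have hBpos : (0 : ℝ) < Bk k := by exact_mod_cast Bk_pos k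
  have hmod0 : 0 ≤ i % (Ik k : ℤ) := Int.emod_nonneg _ hIpos.ne'
  have hmod1 : i % (Ik k : ℤ) < Ik k := Int.emod_lt_of_pos _ hIpos
  obtain ⟨r, hr⟩ : ∃ r : ℕ, (r : ℤ) = i % (Ik k : ℤ) := ⟨(i % (Ik k : ℤ)).toNat, by omega⟩
  have hrI : r < Ik k := by omega
  set ii : Fin (Ik k) := ⟨r, hrI⟩ with hii
  have hdir : dir k ((ii : ℕ) : ℤ) = ang θ * ang (ak k * i - θ) := by
    have h1 : ((ii : ℕ) : ℤ) = i % (Ik k : ℤ) := by rw [hii]; exact hr
    rw [h1, dir_mod, dir_eq_ang, ← ang_add]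
    congr 1
    ring
  set e : ℂ := dir k ((ii : ℕ) : ℤ) with he
  have hee : e * conj e = 1 := dir_mul_conj _ _
  set a : ℤ := ⌊m.re / Bk k⌋ with ha
  set b : ℤ := ⌊m.im / Bk k⌋ with hb
  set c : ℂ := Bk k * gz a b with hc
  have hmc : ‖m - c‖ ≤ 2 * Bk k := by
    refine (Complex.norm_le_abs_re_add_abs_im _).trans ?_
    have h1 : (m - c).re = m.re - Bk k * a := by
      simp [hc, gz]
    have h2 : (m - c).im = m.im - Bk k * b := by
      simp [hc, gz]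
    have h3 : (a : ℝ) ≤ m.re / Bk k := Int.floor_le _
    have h4 : m.re / Bk k < (a : ℝ) + 1 := Int.lt_floor_add_one _
    have h5 : (b : ℝ) ≤ m.im / Bk k := Int.floor_le _
    have h6 : m.im / Bk k < (b : ℝ) + 1 := Int.lt_floor_add_one _
    rw [le_div_iff₀ hBpos] at h3 h5
    rw [div_lt_iff₀ hBpos] at h4 h6
    rw [h1, h2, abs_of_nonneg (by linarith), abs_of_nonneg (by linarith)]
    linarith
  set ν : ℝ := ((m - c) * conj e).im with hν
  set x0 : ℝ := ((m - c) * conj e).re with hx0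
  obtain ⟨n, hn1, hn2⟩ := exists_mul (Hk k) (ν - off k ii) hHpos (-s)
    (by rcases hs with rfl | rfl <;> norm_num)
  refine ⟨ak k * i - θ, (off k ii : ℝ) + n * Hk k - ν, -x0, ⟨hi1, hi2⟩, ⟨?_, ?_⟩, ?_⟩
  · linarith
  · linarith
  · intro j h1 h2
    right
    have hz : m + ang θ * (ang (ak k * i - θ) * ⟨-x0 + j / Mk k, (off k ii : ℝ) + n * Hk k - ν⟩)
        = roadPt k c ii n j := by
      unfold roadPt
      rw [← mul_assoc, ← hdir, ← he]
      have h3 : (⟨-x0 + j / Mk k, (off k ii : ℝ) + n * Hk k - ν⟩ : ℂ)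
          = ⟨(j : ℝ) / Mk k, (off k ii : ℝ) + n * Hk k⟩ - (m - c) * conj e := by
        apply Complex.ext
        · simp only [Complex.sub_re]
          rw [← hx0]
          ring
        · simp only [Complex.sub_im]
          rw [← hν]
      rw [h3]
      linear_combination -(m - c) * hee
    refine ⟨k, hk, a, b, ii, n, j, hz, ?_, h2⟩
    rw [← hc]
    have h4 : m + ang θ * (ang (ak k * i - θ) * ⟨-x0 + j / Mk k, (off k ii : ℝ) + n * Hk k - ν⟩) - c
        = ang θ * (ang (ak k * i - θ) * ⟨-x0 + j / Mk k, (off k ii : ℝ) + n * Hk k - ν⟩)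
          + (m - c) := by ring
    rw [h4]
    refine (norm_add_le _ _).trans ?_
    rw [norm_mul, norm_ang, one_mul]
    linarith

end Pool.Agent.Lib8ede
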