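import Pool.Agent.Lib8ede.Road

/-! Numerical facts about the scales. -/

namespace Pool.Agent.Lib8ede

lemma Hk_real {k : ℕ} (hk : 2 ≤ k) : (Hk k : ℝ) = 2 ^ k / 2 ^ lev k := by
  unfold Hk
  push_cast
  rw [pow_sub₀ _ (by norm_num) (lev_le hk)]
  rfl

lemma ak_real (k : ℕ) : ak k = Real.pi / (4 * 2 ^ k * 2 ^ lev k) := by
  unfold ak Ik
  push_cast
  rw [pow_add, pow_add]
  field_simp
  norm_num

lemma Mk_real (k : ℕ) : (Mk k : ℝ) = (2 ^ lev k) ^ 2 := by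
  unfold Mk
  push_cast
  rw [← pow_mul, mul_comm, pow_mul]
  norm_num

lemma Bk_real (k : ℕ) : (Bk k : ℝ) = 32 * (2 ^ k) ^ 2 := by
  unfold Bk
  push_cast
  rw [← pow_mul, mul_comm k 2, pow_mul]
  norm_num

lemma four_pow_real (k : ℕ) : (4 : ℝ) ^ k = (2 ^ k) ^ 2 := by
  rw [← pow_mul, mul_comm, pow_mul]
  norm_num

lemma lev_succ (k : ℕ) : lev (k + 1) = lev k ∨ lev (k + 1) = lev k + 1 := by
  unfold lev
  have h1 : Nat.log 2 (k + 2) ≤ Nat.log 2 (k + 1 + 2) := Nat.log_mono_right (by omega)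
  have h2 : Nat.log 2 (k + 1 + 2) < Nat.log 2 (k + 2) + 2 := by
    apply Nat.log_lt_of_lt_pow (by omega)
    have h3 : k + 2 < 2 ^ (Nat.log 2 (k + 2) + 1) := Nat.lt_pow_succ_log_self (by norm_num) _
    rw [pow_succ] at h3 ⊢
    rw [pow_succ]
    omega
  omega

lemma Q_ge_one (k : ℕ) : (1 : ℝ) ≤ 2 ^ lev k := one_le_pow₀ (by norm_num)

lemma Q_le {k : ℕ} (hk : 12 ≤ k) : (256 : ℝ) * 2 ^ lev k ≤ 2 ^ k := by
  have h1 : 2 ^ lev k ≤ k + 2 := Nat.pow_log_le_self 2 (by omega)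
  have h2 : 256 * (k + 2) ≤ 2 ^ k := by
    clear h1
    induction k, hk using Nat.le_induction with
    | base => norm_num
    | succ n hn ih => rw [pow_succ]; omega
  have h3 : 256 * 2 ^ lev k ≤ 2 ^ k := by omega
  exact_mod_cast h3

lemma P_ge {k : ℕ} (hk : 12 ≤ k) : (4096 : ℝ) ≤ 2 ^ k := by
  calc (4096 : ℝ) = 2 ^ 12 := by norm_num
    _ ≤ 2 ^ k := pow_le_pow_right₀ (by norm_num) hk

/-- `1 / Q² ≤ 4 / (k+2)²` -/
lemma Q_sq_ge (k : ℕ) : ((k : ℝ) + 2) ^ 2 ≤ 4 * (2 ^ lev k) ^ 2 := by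
  have h : k + 2 < 2 ^ (lev k + 1) := Nat.lt_pow_succ_log_self (by norm_num) _
  have h2 : ((k : ℝ) + 2) ≤ 2 * 2 ^ lev k := by
    have h3 : ((k + 2 : ℕ) : ℝ) ≤ ((2 ^ (lev k + 1) : ℕ) : ℝ) := by exact_mod_cast h.le
    push_cast at h3
    rw [pow_succ] at h3
    linarith
  have h4 : (0 : ℝ) ≤ (k : ℝ) + 2 := by positivity
  nlinarith

/-- numerical data of one scale -/
structure Num (a H P Q : ℝ) : Prop where
  Q1 : 1 ≤ Q
  P1 : 4096 ≤ P
  PQ : 256 * Q ≤ P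
  Heq : H * Q = P
  aeq : a * (4 * P * Q) = Real.pi

lemma num {k : ℕ} (hk : 12 ≤ k) : Num (ak k) (Hk k) (2 ^ k) (2 ^ lev k) where
  Q1 := Q_ge_one k
  P1 := P_ge hk
  PQ := Q_le hk
  Heq := by rw [Hk_real (by omega)]; field_simp
  aeq := by rw [ak_real]; field_simp

namespace Num
variable {a H P Q : ℝ}

lemma apos (h : Num a H P Q) : 0 < a := by
  have h1 := h.Q1; have h2 := h.P1; have h3 := h.aeq
  have h4 : 0 < 4 * P * Q := by positivity
  have h5 : a = Real.pi / (4 * P * Q) := by field_simp; linarith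
  rw [h5]; positivity

lemma Hpos (h : Num a H P Q) : 0 < H := by
  have h1 := h.Q1; have h2 := h.P1; have h3 := h.Heq
  have h5 : H = P / Q := by field_simp; linarith
  rw [h5]; positivity

/-- `H / a = 4 P² / π` -/
lemma ratio (h : Num a H P Q) : H * Real.pi = 4 * P ^ 2 * a := by
  have h1 := h.Q1; have h3 := h.Heq; have h4 := h.aeq
  have hQ : Q ≠ 0 := by linarith
  rw [← h4]
  have : H * (a * (4 * P * Q)) = (H * Q) * (4 * P * a) := by ring
  rw [this, h3]; ring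

lemma Hle (h : Num a H P Q) : H ≤ P := by
  have h1 := h.Q1; have h3 := h.Heq; have h4 := h.Hpos
  nlinarith

lemma ale (h : Num a H P Q) : a * P ≤ 4 / 5 := by
  have h1 := h.Q1; have h3 := h.aeq; have h4 := h.apos
  have h5 := Real.pi_lt_d2
  have h6 := h.P1
  have h7 : a * P * 4 ≤ a * (4 * P * Q) := by
    have : 0 ≤ a * P := by positivity
    nlinarith
  linarith

lemma asmall (h : Num a H P Q) : a ≤ 1 / 5000 := by
  have h1 := h.ale; have h2 := h.P1; have h3 := h.apos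
  nlinarith

lemma aH (h : Num a H P Q) : a * H ≤ 4 / 5 := by
  have h1 := h.ale; have h2 := h.Hle; have h3 := h.apos
  nlinarith

/-- `a² P² ≤ (5/8) / Q²` -/
lemma a_sq (h : Num a H P Q) : a ^ 2 * P ^ 2 * Q ^ 2 ≤ 5 / 8 := by
  have h3 := h.aeq
  have h5 := Real.pi_lt_d2
  have h6 := Real.pi_pos
  have h7 : a ^ 2 * P ^ 2 * Q ^ 2 * 16 = Real.pi ^ 2 := by rw [← h3]; ring
  nlinarith

end Num

end Pool.Agent.Lib8ede
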