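import Pool.Agent.Lib8ede.Climb

/-! One step of the climb. -/

namespace Pool.Agent.Lib8ede

open Complex ComplexConjugate

/-- the number of steps up to the crossing, and the remaining gap -/
lemma step_count {a H P Q a' H' δ d₁ d₂ t : ℝ} (hn : Num a H P Q) (hx : Next a H a' H')
    (hδ1 : 2 * (a + a') ≤ δ) (hδ2 : δ ≤ 3 * (a + a')) (hd1 : 2 * H ≤ d₁) (hd1' : d₁ ≤ 3 * H)
    (hd2 : 2 * H' ≤ d₂) (hd2' : d₂ ≤ 3 * H') (ht : t ≤ P ^ 2) :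
    ∃ N : ℕ, t + N ≤ 39 / 10 * P ^ 2 ∧ 13 / 10 * P ^ 2 - 1 ≤ t + N ∧
      0 ≤ d₁ * Real.cos δ + d₂ - (t + N) * Real.sin δ ∧
      d₁ * Real.cos δ + d₂ - (t + N) * Real.sin δ ≤ Real.sin δ := by
  obtain ⟨h1, h2, h3⟩ := cross_pos hn hx hδ1 hδ2 hd1 hd1' hd2 hd2'
  set s := Real.sin δ
  set y := d₁ * Real.cos δ + d₂
  have h4 : 13 / 10 * P ^ 2 ≤ y / s := by rw [le_div_iff₀ h1]; exact h2
  have h5 : y / s ≤ 39 / 10 * P ^ 2 := by rw [div_le_iff₀ h1]; exact h3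
  have h6 : 0 ≤ y / s - t := by
    have := hn.P1
    nlinarith
  have h7 : ((⌊y / s - t⌋₊ : ℕ) : ℝ) ≤ y / s - t := Nat.floor_le h6
  have h8 : y / s - t < (⌊y / s - t⌋₊ : ℝ) + 1 := Nat.lt_floor_add_one _
  have h9 : y / s * s = y := by field_simp
  refine ⟨⌊y / s - t⌋₊, by linarith, by linarith, ?_, ?_⟩
  · have : (t + (⌊y / s - t⌋₊ : ℝ)) * s ≤ (y / s) * s :=
      mul_le_mul_of_nonneg_right (by linarith) h1.le
    linarith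
  · have : (y / s) * s ≤ (t + (⌊y / s - t⌋₊ : ℝ) + 1) * s :=
      mul_le_mul_of_nonneg_right (by linarith) h1.le
    linarith

/-- the longitudinal coordinate in the frame of the new road -/
lemma step_x {a H P Q a' H' δ d₁ x : ℝ} (hn : Num a H P Q) (hx : Next a H a' H')
    (hδ1 : 2 * (a + a') ≤ δ) (hδ2 : δ ≤ 3 * (a + a')) (hd1 : 2 * H ≤ d₁) (hd1' : d₁ ≤ 3 * H)
    (h1 : x ≤ 39 / 10 * P ^ 2) (h2 : 13 / 10 * P ^ 2 - 1 ≤ x) :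
    12 / 10 * P ^ 2 ≤ x * Real.cos δ + d₁ * Real.sin δ ∧
      x * Real.cos δ + d₁ * Real.sin δ ≤ 39 / 10 * P ^ 2 + 11 := by
  have ha := hn.apos
  have hH := hn.Hpos
  have haH := hn.aH
  have has := hn.asmall
  have hP := hn.P1
  have hδ0 : 0 < δ := by
    rcases hx with ⟨e, -⟩ | ⟨e, -⟩ <;> rw [e] at hδ1 <;> linarith
  have hδ3 : δ ≤ 9 / 2 * a := by
    rcases hx with ⟨e, -⟩ | ⟨e, -⟩ <;> rw [e] at hδ2 <;> linarith
  obtain ⟨t1, t2, t3, t4⟩ := trig_bounds hδ0.le (by linarith)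
  have hs0 : 0 ≤ Real.sin δ := by linarith
  have hP2 : 4096 ^ 2 ≤ P ^ 2 := by nlinarith
  have hx0 : 0 ≤ x := by linarith
  have h3 : d₁ * Real.sin δ ≤ 11 := by
    calc d₁ * Real.sin δ ≤ (3 * H) * (9 / 2 * a) :=
          mul_le_mul hd1' (by linarith) hs0 (by linarith)
      _ = 27 / 2 * (a * H) := by ring
      _ ≤ 11 := by linarith
  have h4 : 0 ≤ d₁ * Real.sin δ := mul_nonneg (by linarith) hs0
  have h5 : x * Real.cos δ ≤ x := by nlinarith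
  have h6 : 999 / 1000 * x ≤ x * Real.cos δ := by nlinarith
  constructor
  · linarith
  · linarith

lemma sq_bound {x b : ℝ} (h : |x| ≤ b) : x ^ 2 ≤ b ^ 2 := by
  rw [← sq_abs]
  exact pow_le_pow_left₀ (abs_nonneg x) h 2

lemma sum_loss {W g2 M' c y gs pa a2 u : ℝ} (hu : 0 ≤ u) (h3 : W ≤ 351 / 20 * pa)
    (h4 : pa ≤ 5 / 8 * u) (h9 : gs ≤ 27 / 4 * a2) (h10 : g2 ≤ 81 / 4 * a2)
    (h12 : (1 - g2 - M') * c ≤ y * c) (h13 : 1 - g2 - M' - 9 / 8 * a2 ≤ (1 - g2 - M') * c)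
    (h14 : a2 ≤ 1 / 1000 * u) (hM : M' ≤ u) :
    W + 1 - (y * c - gs) ≤ 12 * u := by
  linarith

lemma cos_part {g2 M' c a2 : ℝ} (hc1 : 1 - 9 / 8 * a2 ≤ c) (hc2 : c ≤ 1) (h1 : 0 ≤ g2)
    (h3 : 0 ≤ M') :
    1 - g2 - M' - 9 / 8 * a2 ≤ (1 - g2 - M') * c := by
  have h5 : 0 ≤ (g2 + M') * (1 - c) := mul_nonneg (by linarith) (by linarith)
  nlinarith

/-- the loss of one step of the climb -/
lemma step_loss {a H P Q a' H' δ τ τ' g M N y : ℝ} (hn : Num a H P Q) (hx : Next a H a' H')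
    (hδ2 : δ ≤ 3 * (a + a')) (hτ : |τ| ≤ 3 * a) (hτ' : |τ'| ≤ 3 * a')
    (hg0 : 0 ≤ g) (hg1 : g ≤ Real.sin δ) (hδ0 : 0 ≤ δ) (hM : Q ^ 2 ≤ M)
    (hN : N ≤ 39 / 10 * P ^ 2) (hy : 1 - g ^ 2 - 1 / M ≤ y) :
    N * (1 - Real.cos τ) + 1 - (y * Real.cos τ' - g * |Real.sin τ'|) ≤ 12 / Q ^ 2 := by
  have ha := hn.apos
  have has := hn.asmall
  have hP := hn.P1
  have hQ := hn.Q1
  have hsq := hn.a_sq
  have ha' : 0 < a' ∧ a' ≤ a / 2 := by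
    rcases hx with ⟨e, -⟩ | ⟨e, -⟩ <;> rw [e] <;> constructor <;> linarith
  have hg : g ≤ 9 / 2 * a := by
    have := Real.sin_le hδ0
    linarith [ha'.2]
  have hQ2 : 0 < Q ^ 2 := by positivity
  have hQ21 : 1 ≤ Q ^ 2 := one_le_pow₀ hQ
  have hM0 : 0 < M := lt_of_lt_of_le hQ2 hM
  have hM1 : 1 / M ≤ 1 / Q ^ 2 := one_div_le_one_div_of_le hQ2 hM
  have h1 := Real.one_sub_sq_div_two_le_cos (x := τ)
  have h2 : τ ^ 2 ≤ (3 * a) ^ 2 := sq_bound hτ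
  have h3 : N * (1 - Real.cos τ) ≤ 39 / 10 * P ^ 2 * (9 / 2 * a ^ 2) :=
    mul_le_mul hN (by linarith) (by linarith [Real.cos_le_one τ]) (by positivity)
  have h3' : N * (1 - Real.cos τ) ≤ 351 / 20 * (P ^ 2 * a ^ 2) := h3.trans (le_of_eq (by ring))
  have h4 : P ^ 2 * a ^ 2 ≤ 5 / 8 * (1 / Q ^ 2) := by
    rw [mul_one_div, le_div_iff₀ hQ2]
    linarith
  have h5 := Real.one_sub_sq_div_two_le_cos (x := τ')
  have h6 : |τ'| ≤ 3 / 2 * a := by linarith [ha'.2]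
  have h7 : τ' ^ 2 ≤ (3 / 2 * a) ^ 2 := sq_bound h6
  have h8 : |Real.sin τ'| ≤ 3 / 2 * a := Real.abs_sin_le_abs.trans h6
  have h9 : g * |Real.sin τ'| ≤ 27 / 4 * a ^ 2 := by
    calc g * |Real.sin τ'| ≤ (9 / 2 * a) * (3 / 2 * a) :=
          mul_le_mul hg h8 (abs_nonneg _) (by linarith)
      _ = 27 / 4 * a ^ 2 := by ring
  have h10 : g ^ 2 ≤ (9 / 2 * a) ^ 2 := pow_le_pow_left₀ hg0 hg 2
  have ha2 : a ^ 2 ≤ (1 / 5000) ^ 2 := pow_le_pow_left₀ ha.le has 2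
  have h11 : 1 - 9 / 8 * a ^ 2 ≤ Real.cos τ' := by linarith
  have h11' : 0 ≤ Real.cos τ' := by linarith
  have h12 : (1 - g ^ 2 - 1 / M) * Real.cos τ' ≤ y * Real.cos τ' :=
    mul_le_mul_of_nonneg_right hy h11'
  have h13 := cos_part (M' := 1 / M) h11 (Real.cos_le_one τ') (sq_nonneg g) (by positivity)
  have h14 : a ^ 2 ≤ 1 / 1000 * (1 / Q ^ 2) := by
    rw [mul_one_div, le_div_iff₀ hQ2]
    have e1 : 4096 ^ 2 ≤ P ^ 2 := pow_le_pow_left₀ (by norm_num) hP 2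
    have e2 : 0 ≤ a ^ 2 * Q ^ 2 := by positivity
    have e3 : a ^ 2 * Q ^ 2 * 4096 ^ 2 ≤ a ^ 2 * Q ^ 2 * P ^ 2 := mul_le_mul_of_nonneg_left e1 e2
    linarith
  have := sum_loss (by positivity) h3' h4 h9 (by linarith) h12 h13 h14 hM1
  rw [← mul_one_div 12]
  exact this

end Pool.Agent.Lib8ede
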