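import Pool.Agent.Lib8ede.Base

/-! The join of the two climbs at the top level. -/

namespace Pool.Agent.Lib8ede

open Complex ComplexConjugate

lemma ang_pi (θ : ℝ) : ang (θ + Real.pi) = -ang θ := by
  rw [ang_add]
  have : ang Real.pi = -1 := by
    unfold ang
    exact Complex.exp_pi_mul_I
  rw [this]
  ring

/-- a point of the first road in the frame of the second road -/
lemma frame_top (m : ℂ) (θ T τ τ' x d : ℝ) :
    m + ang θ * (ang τ * ⟨x, d⟩)
      = (m + ang θ * T) + ang (θ + Real.pi) * (ang τ' *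
        ⟨T * Real.cos τ' - (x * Real.cos (τ - τ') - d * Real.sin (τ - τ')),
          -(T * Real.sin τ') - (x * Real.sin (τ - τ') + d * Real.cos (τ - τ'))⟩) := by
  have h1 : (⟨T * Real.cos τ' - (x * Real.cos (τ - τ') - d * Real.sin (τ - τ')),
      -(T * Real.sin τ') - (x * Real.sin (τ - τ') + d * Real.cos (τ - τ'))⟩ : ℂ)
      = (T : ℂ) * ang (-τ') - ang (τ - τ') * ⟨x, d⟩ := by
    apply Complex.ext
    · rw [Complex.sub_re, loc_re, Complex.re_ofReal_mul, ang_re, Real.cos_neg]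
    · rw [Complex.sub_im, loc_im, Complex.im_ofReal_mul, ang_im, Real.sin_neg]
      ring
  have h2 : ang τ' * ((T : ℂ) * ang (-τ') - ang (τ - τ') * ⟨x, d⟩) = T - ang τ * ⟨x, d⟩ := by
    have e1 : ang τ' * ang (-τ') = 1 := by
      rw [← ang_add, add_neg_cancel]
      unfold ang
      simp
    have e2 : ang τ' * ang (τ - τ') = ang τ := by
      rw [← ang_add]
      congr 1
      ring
    rw [← e2]
    linear_combination (T : ℂ) * e1
  rw [h1, h2, ang_pi]
  ring

/-- numerical part of the join -/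
lemma top_count {a H P Q τ α d₁ d₂ t T : ℝ} (hn : Num a H P Q)
    (hτ1 : 2 * a ≤ τ) (hτ2 : τ ≤ 3 * a) (hα1 : 2 * a ≤ α) (hα2 : α ≤ 3 * a)
    (hd1 : 2 * H ≤ d₁) (hd1' : d₁ ≤ 3 * H) (hd2 : 2 * H ≤ d₂) (hd2' : d₂ ≤ 3 * H)
    (ht : t ≤ P ^ 2) (hT : 8 * P ^ 2 ≤ T) :
    ∃ N : ℕ, t + N ≤ 641 / 1000 * T ∧ 358 / 1000 * T ≤ t + N ∧
      0 ≤ T * Real.sin α + d₁ * Real.cos (τ + α) - d₂ - (t + N) * Real.sin (τ + α) ∧
      T * Real.sin α + d₁ * Real.cos (τ + α) - d₂ - (t + N) * Real.sin (τ + α)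
        ≤ Real.sin (τ + α) := by
  have ha := hn.apos
  have hH := hn.Hpos
  have hr := hn.ratio
  have has := hn.asmall
  have hP := hn.P1
  have hpi := Real.pi_gt_d2
  have hpi' := Real.pi_lt_d2
  have hP2 : 4096 ^ 2 ≤ P ^ 2 := pow_le_pow_left₀ (by norm_num) hP 2
  have hT0 : 0 < T := by linarith
  set δ := τ + α with hδ
  obtain ⟨s1, s2, s3, s4⟩ := trig_bounds (x := δ) (by linarith) (by linarith)
  obtain ⟨r1, r2, r3, r4⟩ := trig_bounds (x := α) (by linarith) (by linarith)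
  have hs0 : 0 < Real.sin δ := by linarith
  -- `H ≤ (4/3.14) P² a ≤ (1/6.28) T a`
  have hHa : H * 628 ≤ 100 * (T * a) := by
    have e1 : P ^ 2 * a ≤ T / 8 * a := mul_le_mul_of_nonneg_right (by linarith) ha.le
    nlinarith
  set y := T * Real.sin α + d₁ * Real.cos δ - d₂ with hy
  have hTα : T * (999 / 1000 * α) ≤ T * Real.sin α := mul_le_mul_of_nonneg_left r1 hT0.le
  have hTα' : T * Real.sin α ≤ T * α := mul_le_mul_of_nonneg_left r2 hT0.le
  have hd1c : 999 / 1000 * (2 * H) ≤ d₁ * Real.cos δ := by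
    calc 999 / 1000 * (2 * H) = 2 * H * (999 / 1000) := by ring
      _ ≤ d₁ * Real.cos δ := mul_le_mul hd1 s3 (by norm_num) (by linarith)
  have hd1c' : d₁ * Real.cos δ ≤ 3 * H := by
    calc d₁ * Real.cos δ ≤ d₁ * 1 := mul_le_mul_of_nonneg_left s4 (by linarith)
      _ ≤ 3 * H := by linarith
  have hTa : 0 < T * a := by positivity
  have hαT : T * (2 * a) ≤ T * α := mul_le_mul_of_nonneg_left hα1 hT0.le
  have hlow : 359 / 1000 * T * Real.sin δ ≤ y := by
    have e1 : 359 / 1000 * T * Real.sin δ ≤ 359 / 1000 * T * δ :=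
      mul_le_mul_of_nonneg_left s2 (by positivity)
    have e2 : 359 / 1000 * T * δ ≤ 359 / 1000 * (T * (3 * a) + T * α) := by
      have : T * δ ≤ T * (3 * a) + T * α := by
        rw [hδ, mul_add]
        have := mul_le_mul_of_nonneg_left hτ2 hT0.le
        linarith
      linarith
    linarith
  have hupp : y ≤ 641 / 1000 * T * Real.sin δ := by
    have e1 : 641 / 1000 * T * (999 / 1000 * δ) ≤ 641 / 1000 * T * Real.sin δ :=
      mul_le_mul_of_nonneg_left s1 (by positivity)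
    have e2 : 641 / 1000 * (999 / 1000) * (T * (2 * a) + T * α)
        ≤ 641 / 1000 * T * (999 / 1000 * δ) := by
      have : T * (2 * a) + T * α ≤ T * δ := by
        rw [hδ, mul_add]
        have := mul_le_mul_of_nonneg_left hτ1 hT0.le
        linarith
      linarith
    have e3 : T * α ≤ T * (3 * a) := mul_le_mul_of_nonneg_left hα2 hT0.le
    linarith
  have h4 : 359 / 1000 * T ≤ y / Real.sin δ := by rw [le_div_iff₀ hs0]; exact hlow
  have h5 : y / Real.sin δ ≤ 641 / 1000 * T := by rw [div_le_iff₀ hs0]; exact hupp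
  have h6 : 0 ≤ y / Real.sin δ - t := by linarith
  have h7 : ((⌊y / Real.sin δ - t⌋₊ : ℕ) : ℝ) ≤ y / Real.sin δ - t := Nat.floor_le h6
  have h8 : y / Real.sin δ - t < (⌊y / Real.sin δ - t⌋₊ : ℝ) + 1 := Nat.lt_floor_add_one _
  have h9 : y / Real.sin δ * Real.sin δ = y := by field_simp
  refine ⟨⌊y / Real.sin δ - t⌋₊, by linarith, by linarith, ?_, ?_⟩
  · have : (t + (⌊y / Real.sin δ - t⌋₊ : ℝ)) * Real.sin δ ≤ (y / Real.sin δ) * Real.sin δ :=
      mul_le_mul_of_nonneg_right (by linarith) hs0.le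
    linarith
  · have : (y / Real.sin δ) * Real.sin δ ≤ (t + (⌊y / Real.sin δ - t⌋₊ : ℝ) + 1) * Real.sin δ :=
      mul_le_mul_of_nonneg_right (by linarith) hs0.le
    linarith

/-- a long walk on one road costs only a constant -/
lemma long_loss {a H P Q τ N : ℝ} (hn : Num a H P Q) (hτ : |τ| ≤ 3 * a)
    (hN : N ≤ 21 * P ^ 2) : N * (1 - Real.cos τ) ≤ 60 := by
  have ha := hn.apos
  have hP := hn.P1
  have hQ := hn.Q1
  have hsq := hn.a_sq
  have h1 := Real.one_sub_sq_div_two_le_cos (x := τ)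
  have h2 : τ ^ 2 ≤ (3 * a) ^ 2 := sq_bound hτ
  have h3 : N * (1 - Real.cos τ) ≤ 21 * P ^ 2 * (9 / 2 * a ^ 2) :=
    mul_le_mul hN (by linarith) (by linarith [Real.cos_le_one τ]) (by positivity)
  have h4 : a ^ 2 * P ^ 2 ≤ a ^ 2 * P ^ 2 * Q ^ 2 :=
    le_mul_of_one_le_right (by positivity) (one_le_pow₀ hQ)
  linarith

/-- walk along the top road -/
lemma road_walk {K : ℕ} {m v : ℂ} {θ T τ d t A : ℝ} (hK : 12 ≤ K)
    (hT : 8 * ((2 : ℝ) ^ K) ^ 2 ≤ T) (hT2 : T ≤ 32 * ((2 : ℝ) ^ K) ^ 2) (hact : Act m θ T K)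
    (hτ : |τ| ≤ 3 * ak K) (hd : |d| ≤ 3 * Hk K) (hroad : IsRoad K m θ τ d t)
    (ht : ((2 : ℝ) ^ K) ^ 2 / 4 ≤ t) (hD : D v (m + ang θ * (ang τ * ⟨t, d⟩)) ((ang τ * ⟨t, d⟩).re + A))
    (N : ℕ) (hN : t + N ≤ 129 / 200 * T) :
    D v (m + ang θ * (ang τ * ⟨t + N, d⟩)) ((ang τ * ⟨t + N, d⟩).re + A + 60) := by
  have hn := num hK
  have hP := P_ge hK
  have hP2 : 4096 ^ 2 ≤ ((2 : ℝ) ^ K) ^ 2 := pow_le_pow_left₀ (by norm_num) hP 2
  have h1 : ∀ n : ℕ, m + ang θ * (ang τ * (⟨t + n, d⟩ : ℂ)) = m + ang θ * ang τ * (⟨t, d⟩ + n) := by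
    intro n
    rw [mul_assoc]
    congr 3
    apply Complex.ext <;> simp
  have hw : D v (m + ang θ * (ang τ * ⟨t + N, d⟩)) ((ang τ * ⟨t, d⟩).re + A + N) := by
    rw [h1]
    refine D_road (by rw [norm_mul, norm_ang, norm_ang, one_mul]) N ?_ ?_
    · have := h1 0
      simp only [Nat.cast_zero, add_zero] at this
      rw [← this]
      exact hD
    · intro n hn2
      rw [← h1]
      have h2 : t + ((n * Mk K : ℤ) : ℝ) / Mk K = t + n := by
        have : (Mk K : ℝ) ≠ 0 := by exact_mod_cast (Mk_pos K).ne'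
        push_cast
        field_simp
      have h3 : (n : ℝ) ≤ N := by exact_mod_cast hn2
      have h4 : (0 : ℝ) ≤ n := Nat.cast_nonneg n
      have := mem_road hK le_rfl (by linarith : (2000 : ℝ) ≤ T) hact hτ hd hroad
        (n * Mk K : ℤ) (by rw [h2]; linarith) (by rw [h2]; linarith) (by rw [h2]; linarith)
      rwa [h2] at this
  refine hw.mono ?_
  have h3 := long_loss (N := N) hn hτ (by linarith)
  rw [loc_re, loc_re]
  linarith

theorem join {K : ℕ} {m : ℂ} {θ T : ℝ} (hK : 12 ≤ K) (hT : 8 * ((2 : ℝ) ^ K) ^ 2 ≤ T)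
    (hT2 : T ≤ 32 * ((2 : ℝ) ^ K) ^ 2) (hact : Act m θ T K)
    (hact' : Act (m + ang θ * T) (θ + Real.pi) T K) :
    D (rnd m) (rnd (m + ang θ * T)) (T + 20001000) := by
  set y : ℂ := m + ang θ * T with hy
  obtain ⟨τ, d, t, ⟨hτ1, hτ2⟩, ⟨hd1, hd2⟩, hroad, ht1, ht2, hD⟩ :=
    climb_all hT hact hK le_rfl 1 (Or.inl rfl)
  obtain ⟨τ', d', t', ⟨hτ1', hτ2'⟩, ⟨hd1', hd2'⟩, hroad', ht1', ht2', hD'⟩ :=
    climb_all hT hact' hK le_rfl (-1) (Or.inr rfl)
  have hn := num hK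
  have hP := P_ge hK
  have hP2 : 4096 ^ 2 ≤ ((2 : ℝ) ^ K) ^ 2 := pow_le_pow_left₀ (by norm_num) hP 2
  have ha := hn.apos
  have hH := hn.Hpos
  have has := hn.asmall
  have haH := hn.aH
  have hK0 : (0 : ℝ) < 60 / ((K : ℝ) + 1) := by positivity
  have habsτ : |τ| ≤ 3 * ak K := by rw [abs_le]; constructor <;> linarith
  have habsτ' : |τ'| ≤ 3 * ak K := by rw [abs_le]; constructor <;> linarith
  have habsd : |d| ≤ 3 * Hk K := by rw [abs_le]; constructor <;> linarith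
  have habsd' : |d'| ≤ 3 * Hk K := by rw [abs_le]; constructor <;> linarith
  obtain ⟨N, hN1, hN2, hN3, hN4⟩ := top_count (τ := τ) (α := -τ') (d₁ := -d) (d₂ := d') (t := t)
    (T := T) hn (by linarith) (by linarith) (by linarith) (by linarith) (by linarith) (by linarith)
    (by linarith) (by linarith) ht2 hT
  have hw := road_walk hK hT hT2 hact habsτ habsd hroad ht1 hD N (by linarith)
  -- the point in the other frame
  have hfr := frame_top m θ T τ τ' (t + N) d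
  rw [← hy] at hfr
  have hδ : τ - τ' = τ + -τ' := by ring
  rw [hδ] at hfr
  set δ := τ + -τ' with hδdef
  set X : ℝ := T * Real.cos τ' - ((t + N) * Real.cos δ - d * Real.sin δ) with hX
  set Y : ℝ := -(T * Real.sin τ') - ((t + N) * Real.sin δ + d * Real.cos δ) with hY
  obtain ⟨s1, s2, s3, s4⟩ := trig_bounds (x := δ) (by linarith) (by linarith)
  have hcτ' : 999 / 1000 ≤ Real.cos τ' := by
    have h1 := Real.one_sub_sq_div_two_le_cos (x := τ')
    have h2 := sq_bound habsτ'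
    have h3 : (3 * ak K) ^ 2 ≤ (3 * (1 / 5000)) ^ 2 :=
      pow_le_pow_left₀ (by linarith) (by linarith) 2
    norm_num at h3
    linarith
  have hT0 : 0 < T := by linarith
  have hX1 : ((2 : ℝ) ^ K) ^ 2 ≤ X := by
    have e1 : T * (999 / 1000) ≤ T * Real.cos τ' := mul_le_mul_of_nonneg_left hcτ' hT0.le
    have e2 : (t + N) * Real.cos δ ≤ (t + N) * 1 :=
      mul_le_mul_of_nonneg_left s4 (by linarith)
    have e3 : -(15 : ℝ) ≤ d * Real.sin δ := by
      have e4 : |d * Real.sin δ| ≤ 15 := by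
        rw [abs_mul, abs_of_nonneg (by linarith : 0 ≤ Real.sin δ)]
        calc |d| * Real.sin δ ≤ (3 * Hk K) * (6 * ak K) :=
              mul_le_mul habsd (by linarith) (by linarith) (by linarith)
          _ ≤ 15 := by linarith
      exact (abs_le.1 e4).1
    rw [hX]
    linarith
  have hX2 : X ≤ 129 / 200 * T := by
    have e1 : T * Real.cos τ' ≤ T * 1 := mul_le_mul_of_nonneg_left (Real.cos_le_one _) hT0.le
    have e2 : (t + N) * (999 / 1000) ≤ (t + N) * Real.cos δ :=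
      mul_le_mul_of_nonneg_left s3 (by linarith)
    have e3 : d * Real.sin δ ≤ 0 := mul_nonpos_of_nonpos_of_nonneg (by linarith) (by linarith)
    rw [hX]
    linarith
  have hYd : |Y - d'| ≤ 1 := by
    have e1 : Y - d' = T * Real.sin (-τ') + -d * Real.cos δ - d' - (t + N) * Real.sin δ := by
      rw [hY, Real.sin_neg]; ring
    rw [e1, abs_le]
    constructor <;> linarith
  have h6 : 0 ≤ X - t' := by linarith
  have h7 : ((⌊X - t'⌋₊ : ℕ) : ℝ) ≤ X - t' := Nat.floor_le h6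
  have h8 : X - t' < (⌊X - t'⌋₊ : ℝ) + 1 := Nat.lt_floor_add_one _
  have hw' := road_walk hK hT hT2 hact' habsτ' habsd' hroad' ht1' hD' ⌊X - t'⌋₊ (by linarith)
  set N' : ℕ := ⌊X - t'⌋₊ with hN'
  have hnorm : ‖(⟨X, Y⟩ : ℂ) - ⟨t' + N', d'⟩‖ ≤ 2 := by
    refine (Complex.norm_le_abs_re_add_abs_im _).trans ?_
    simp only [Complex.sub_re, Complex.sub_im]
    have : |X - (t' + N')| ≤ 1 := by rw [abs_le]; constructor <;> linarith
    linarith
  have hdist : ‖(m + ang θ * (ang τ * ⟨t + N, d⟩)) -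
      (y + ang (θ + Real.pi) * (ang τ' * ⟨t' + N', d'⟩))‖ ≤ 2 := by
    rw [hfr]
    have : y + ang (θ + Real.pi) * (ang τ' * ⟨X, Y⟩)
        - (y + ang (θ + Real.pi) * (ang τ' * ⟨t' + N', d'⟩))
        = ang (θ + Real.pi) * (ang τ' * ((⟨X, Y⟩ : ℂ) - ⟨t' + N', d'⟩)) := by ring
    rw [this, norm_mul, norm_mul, norm_ang, norm_ang, one_mul, one_mul]
    exact hnorm
  have hloc := D_local hw.choose_spec.choose hw'.choose_spec.choose
  have hfin := (hw.trans hloc).trans hw'.symm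
  refine hfin.mono ?_
  -- longitudinal coordinates add up to `T`
  have hsum : (ang τ * ⟨t + N, d⟩).re + (ang τ' * ⟨X, Y⟩).re = T := by
    have e1 : ang θ * (ang τ * ⟨t + N, d⟩ + ang τ' * ⟨X, Y⟩) = ang θ * T := by
      rw [ang_pi] at hfr
      linear_combination hfr + hy
    have e2 : ang θ ≠ 0 := by
      intro h0
      have := norm_ang θ
      rw [h0, norm_zero] at this
      norm_num at this
    have e3 := congrArg Complex.re (mul_left_cancel₀ e2 e1)
    rwa [Complex.add_re, Complex.ofReal_re] at e3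
  have hre : (ang τ' * ⟨t' + N', d'⟩).re ≤ (ang τ' * ⟨X, Y⟩).re + 2 := by
    have e1 : (ang τ' * ⟨t' + N', d'⟩).re - (ang τ' * ⟨X, Y⟩).re
        = -(ang τ' * ((⟨X, Y⟩ : ℂ) - ⟨t' + N', d'⟩)).re := by
      rw [← Complex.sub_re, ← Complex.neg_re]
      congr 1
      ring
    have e2 := (Complex.abs_re_le_norm (ang τ' * ((⟨X, Y⟩ : ℂ) - ⟨t' + N', d'⟩)))
    rw [norm_mul, norm_ang, one_mul] at e2
    have e3 := abs_le.1 (e2.trans hnorm)
    linarith [e3.1]
  linarith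

end Pool.Agent.Lib8ede
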