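import Pool.Agent.Lib8ede.Scales

/-! Walks in the unit distance graph of the net. -/

namespace Pool.Agent.Lib8ede

open Complex ComplexConjugate

/-- the unit distance graph on a set of points -/
def unitGraph (S : Set ℂ) : SimpleGraph S where
  Adj x y := x ≠ y ∧ ‖(x : ℂ) - y‖ ≤ 1
  symm := ⟨by
    intro x y h
    refine ⟨h.1.symm, ?_⟩
    rw [norm_sub_rev]
    exact h.2⟩
  loopless := ⟨fun x h => h.1 rfl⟩

/-- there is a walk of length at most `r` from `a` to `b` -/
def D (a b : ℂ) (r : ℝ) : Prop :=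
  ∃ (ha : a ∈ net) (hb : b ∈ net) (w : (unitGraph net).Walk ⟨a, ha⟩ ⟨b, hb⟩), (w.length : ℝ) ≤ r

lemma D.mono {a b : ℂ} {r r' : ℝ} (h : D a b r) (hr : r ≤ r') : D a b r' := by
  obtain ⟨ha, hb, w, hw⟩ := h
  exact ⟨ha, hb, w, hw.trans hr⟩

lemma D.symm {a b : ℂ} {r : ℝ} (h : D a b r) : D b a r := by
  obtain ⟨ha, hb, w, hw⟩ := h
  exact ⟨hb, ha, w.reverse, by rwa [SimpleGraph.Walk.length_reverse]⟩

lemma D.trans {a b c : ℂ} {r r' : ℝ} (h : D a b r) (h' : D b c r') : D a c (r + r') := by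
  obtain ⟨ha, hb, w, hw⟩ := h
  obtain ⟨_, hc, w', hw'⟩ := h'
  refine ⟨ha, hc, w.append w', ?_⟩
  rw [SimpleGraph.Walk.length_append]
  push_cast
  linarith

lemma D_refl {a : ℂ} (ha : a ∈ net) : D a a 0 := ⟨ha, ha, SimpleGraph.Walk.nil, by simp⟩

lemma D_step {a b : ℂ} (ha : a ∈ net) (hb : b ∈ net) (h : ‖a - b‖ ≤ 1) : D a b 1 := by
  by_cases hab : a = b
  · subst hab
    exact (D_refl ha).mono (by norm_num)
  · have hadj : (unitGraph net).Adj ⟨a, ha⟩ ⟨b, hb⟩ := ⟨fun h' => hab (congrArg Subtype.val h'), h⟩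
    exact ⟨ha, hb, SimpleGraph.Walk.cons hadj SimpleGraph.Walk.nil, by simp⟩

lemma gz_mem (a b : ℤ) : gz a b ∈ net := Or.inl ⟨a, b, rfl⟩

lemma D_re (a b : ℤ) (n : ℕ) : D (gz a b) (gz (a + n) b) n := by
  induction n with
  | zero => simpa using D_refl (gz_mem a b)
  | succ n ih =>
    have h : D (gz (a + n) b) (gz (a + (n + 1 : ℕ)) b) 1 := by
      refine D_step (gz_mem _ _) (gz_mem _ _) ?_
      have : gz (a + n) b - gz (a + (n + 1 : ℕ)) b = -1 := by
        apply Complex.ext <;> simp [gz]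
      rw [this]
      simp
    have := ih.trans h
    push_cast at this ⊢
    exact this

lemma D_im (a b : ℤ) (n : ℕ) : D (gz a b) (gz a (b + n)) n := by
  induction n with
  | zero => simpa using D_refl (gz_mem a b)
  | succ n ih =>
    have h : D (gz a (b + n)) (gz a (b + (n + 1 : ℕ))) 1 := by
      refine D_step (gz_mem _ _) (gz_mem _ _) ?_
      have : gz a (b + n) - gz a (b + (n + 1 : ℕ)) = -Complex.I := by
        apply Complex.ext <;> simp [gz]
      rw [this]
      simp
    have := ih.trans h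
    push_cast at this ⊢
    exact this

lemma D_re' (a a' b : ℤ) : D (gz a b) (gz a' b) |(a : ℝ) - a'| := by
  rcases le_total a a' with h | h
  · obtain ⟨n, hn⟩ := Int.eq_ofNat_of_zero_le (sub_nonneg.2 h)
    have h1 : a' = a + n := by omega
    subst h1
    refine (D_re a b n).mono ?_
    push_cast
    rw [abs_sub_comm]
    simp
  · obtain ⟨n, hn⟩ := Int.eq_ofNat_of_zero_le (sub_nonneg.2 h)
    have h1 : a = a' + n := by omega
    subst h1
    refine (D_re a' b n).symm.mono ?_
    push_cast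
    simp

lemma D_im' (a b b' : ℤ) : D (gz a b) (gz a b') |(b : ℝ) - b'| := by
  rcases le_total b b' with h | h
  · obtain ⟨n, hn⟩ := Int.eq_ofNat_of_zero_le (sub_nonneg.2 h)
    have h1 : b' = b + n := by omega
    subst h1
    refine (D_im a b n).mono ?_
    push_cast
    rw [abs_sub_comm]
    simp
  · obtain ⟨n, hn⟩ := Int.eq_ofNat_of_zero_le (sub_nonneg.2 h)
    have h1 : b = b' + n := by omega
    subst h1
    refine (D_im a b' n).symm.mono ?_
    push_cast
    simp

/-- the Gaussian integer next to `z` -/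
noncomputable def rnd (z : ℂ) : ℂ := gz (round z.re) (round z.im)

lemma rnd_mem (z : ℂ) : rnd z ∈ net := gz_mem _ _

lemma norm_sub_rnd (z : ℂ) : ‖z - rnd z‖ ≤ 1 := norm_sub_round z

lemma D_local {a b : ℂ} (ha : a ∈ net) (hb : b ∈ net) : D a b (2 * ‖a - b‖ + 4) := by
  have h1 : D a (rnd a) 1 := D_step ha (rnd_mem a) (norm_sub_rnd a)
  have h2 : D (rnd b) b 1 := (D_step hb (rnd_mem b) (norm_sub_rnd b)).symm
  have h3 := D_re' (round a.re) (round b.re) (round a.im)
  have h4 := D_im' (round b.re) (round a.im) (round b.im)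
  refine (((h1.trans h3).trans h4).trans h2).mono ?_
  have e1 := abs_le.1 (abs_sub_round a.re)
  have e2 := abs_le.1 (abs_sub_round a.im)
  have e3 := abs_le.1 (abs_sub_round b.re)
  have e4 := abs_le.1 (abs_sub_round b.im)
  have e5 := Complex.abs_re_le_norm (a - b)
  have e6 := Complex.abs_im_le_norm (a - b)
  rw [Complex.sub_re] at e5
  rw [Complex.sub_im] at e6
  have e7 : |(round a.re : ℝ) - round b.re| ≤ ‖a - b‖ + 1 := by
    rw [abs_le] at e5 ⊢
    constructor <;> linarith [e1.1, e1.2, e3.1, e3.2, e5.1, e5.2]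
  have e8 : |(round a.im : ℝ) - round b.im| ≤ ‖a - b‖ + 1 := by
    rw [abs_le] at e6 ⊢
    constructor <;> linarith [e2.1, e2.2, e4.1, e4.2, e6.1, e6.2]
  linarith

/-- a straight walk along a road -/
lemma D_road {v m e z : ℂ} {r : ℝ} (he : ‖e‖ = 1) (N : ℕ) (h0 : D v (m + e * z) r)
    (hmem : ∀ n : ℕ, n ≤ N → m + e * (z + n) ∈ net) : D v (m + e * (z + N)) (r + N) := by
  induction N with
  | zero => simpa using h0
  | succ n ih =>
    have h1 := ih fun j hj => hmem j (by omega)
    have h2 : D (m + e * (z + n)) (m + e * (z + (n + 1 : ℕ))) 1 := by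
      refine D_step (hmem n (by omega)) (hmem (n + 1) le_rfl) ?_
      have : m + e * (z + n) - (m + e * (z + (n + 1 : ℕ))) = -e := by push_cast; ring
      rw [this, norm_neg, he]
    have h3 := h1.trans h2
    push_cast at h3 ⊢
    rw [← add_assoc r]
    exact h3

end Pool.Agent.Lib8ede
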